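import Pool.Agent.Helper77.KZ.Two
import Pool.Agent.Helper77.KZ.Swap
import Pool.Agent.Helper7.KZ.Reach

/-!
MP_0aa406_nt, project FE (helper50), part C3 (helper77): a sign pattern of sum one on `Z / l`, `l` an
odd prime, for which the game on all of `Z / l` has negative value, is an alternating arithmetic
progression or has full support.
-/

set_option autoImplicit false

namespace Pool.Agent.Helper77.FE

open Finset Pool.Agent.Helper77.KZ
open scoped Pointwise

variable {n : ℕ}

theorem mem_TT [NeZero n] {g : ZMod n → ℤ} {i : ZMod n} : i ∈ TT g ↔ g i ≠ 0 := by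
  unfold TT
  simp

theorem rest_ssubset' {g : ZMod n → ℤ} {U : Finset (ZMod n)} {s : ZMod n} (h : Meets g U s) :
    rest g U s ⊂ U := by
  obtain ⟨l, hl, hgl⟩ := h
  refine (Finset.ssubset_iff_of_subset (Finset.filter_subset _ _)).mpr ⟨l, hl, ?_⟩
  intro hmem
  exact hgl (Finset.mem_filter.mp hmem).2

theorem cd_prime [Fact n.Prime] {A B : Finset (ZMod n)} (hA : A.Nonempty) (hB : B.Nonempty)
    (h : (A + B).card < n) : A.card + B.card ≤ (A + B).card + 1 := by
  have hp : n.Prime := Fact.out
  have h1 := ZMod.cauchy_davenport hp hA hB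
  rcases min_le_iff.mp h1 with h2 | h2
  · omega
  · omega

/-- nonempty stuck sets are everything -/
theorem no_stuck_one [Fact n.Prime] [NeZero n] {g : ZMod n → ℤ} (he : ∑ i, g i = 1)
    (hT : 2 ≤ (TT g).card) {Y : Finset (ZMod n)} (hY : Stuck g Y) (hne : Y.Nonempty) :
    Y = univ := by
  have h1 := stuck_card hY
  rw [he, mul_one] at h1
  have h2 : (Y + TT g).card = Y.card := by exact_mod_cast h1
  have hTne : (TT g).Nonempty := Finset.card_pos.mp (by omega)
  by_contra hcon
  have h3 : Y.card < n := by
    obtain ⟨x, hx⟩ : ∃ x, x ∉ Y := by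
      by_contra h
      push Not at h
      exact hcon (Finset.eq_univ_iff_forall.mpr h)
    have h4 := Finset.card_lt_univ_of_notMem hx
    simpa [ZMod.card] using h4
  have h5 := cd_prime hne hTne (by omega)
  omega

/-- proper subsets have non-negative value -/
theorem val_proper [Fact n.Prime] [NeZero n] {g : ZMod n → ℤ} (he : ∑ i, g i = 1)
    (hT : 2 ≤ (TT g).card) (U : Finset (ZMod n)) (hU : U ≠ univ) : Val g U 0 := by
  induction U using Finset.strongInduction with
  | H U ih =>
    rcases U.eq_empty_or_nonempty with h0 | hne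
    · subst h0
      exact Val.nil g
    · have hns : ¬ Stuck g U := fun h => hU (no_stuck_one he hT h hne)
      unfold Stuck at hns
      push Not at hns
      obtain ⟨s, hs, hne1⟩ := hns
      have h1 := ih _ (rest_ssubset' hs) (fun h => by
        have h2 := rest_ssubset' hs
        rw [h] at h2
        exact h2.2 (Finset.subset_univ _))
      refine Val.mono (Val.step s h1) ?_
      have h2 : 1 ≤ |EE g U s - 1| := Int.one_le_abs (sub_ne_zero.mpr hne1)
      linarith

theorem stuck_univ [NeZero n] {g : ZMod n → ℤ} (he : ∑ i, g i = 1) : Stuck g univ := by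
  intro s _
  unfold EE
  rw [← he]
  exact Fintype.sum_equiv (Equiv.subLeft s) _ _ (fun l => by simp)

/-- the minimal remainder -/
theorem min_rem_one [Fact n.Prime] [NeZero n] {g : ZMod n → ℤ} (he : ∑ i, g i = 1)
    (hT : 2 ≤ (TT g).card) (hTu : TT g ≠ univ) (hv : ¬ Val g univ 0) :
    ∃ X, X ≠ univ ∧ Data g X ∧ (∃ k, Meets g X k ∧ EE g X k ≠ 1) := by
  have hst := stuck_univ he
  have hr : ∀ X, Reach g univ X → ∀ k, Meets g X k →
      EE g X k = 0 ∨ EE g X k = 1 ∨ EE g X k = 2 := fun X hX k hk =>
    reach_val hst (fun X hX => val_proper he hT X (fun h => by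
      rw [h] at hX
      exact hX.2 (Finset.subset_univ _))) hv hX hk
  obtain ⟨t, ht⟩ : (TT g).Nonempty := Finset.card_pos.mp (by omega)
  obtain ⟨t', ht'⟩ : ∃ t', t' ∉ TT g := by
    by_contra h
    push Not at h
    exact hTu (Finset.eq_univ_iff_forall.mpr h)
  rw [mem_TT] at ht ht'
  push Not at ht'
  have hex : ∃ X : Finset (ZMod n), Reach g univ X ∧ X.Nonempty := by
    refine ⟨_, Reach.first 0 ⟨-t, Finset.mem_univ _, by simpa using ht⟩, ⟨-t', ?_⟩⟩
    exact Finset.mem_filter.mpr ⟨Finset.mem_univ _, by simpa using ht'⟩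
  obtain ⟨X, hX, hmin⟩ : ∃ X : Finset (ZMod n), (Reach g univ X ∧ X.Nonempty) ∧
      ∀ X' : Finset (ZMod n), (Reach g univ X' ∧ X'.Nonempty) → X.card ≤ X'.card := by
    obtain ⟨X, hX, hmin⟩ := WellFounded.has_min
      (measure (fun X : Finset (ZMod n) => X.card)).wf
      {X : Finset (ZMod n) | Reach g univ X ∧ X.Nonempty} hex
    refine ⟨X, hX, fun X' hX' => ?_⟩
    have := hmin X' hX'
    by_contra h
    push Not at h
    exact this h
  obtain ⟨hXr, hXne⟩ := hX
  have hXY := reach_subset hXr
  have hXu : X ≠ univ := fun h => by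
    rw [h] at hXY
    exact hXY.2 (Finset.subset_univ _)
  refine ⟨X, hXu, ⟨hXne, hr X hXr, ?_⟩, ?_⟩
  · intro k hk hk1 x hx h0
    have h1 : EE g X k = 0 ∨ EE g X k = 2 := by
      rcases hr X hXr k hk with h | h | h
      · exact Or.inl h
      · exact absurd h hk1
      · exact Or.inr h
    have h2 := Reach.next X k hXr hk h1
    have h3 : x ∈ rest g X k := Finset.mem_filter.mpr ⟨hx, h0⟩
    have h4 := hmin _ ⟨h2, ⟨x, h3⟩⟩
    have h5 := Finset.card_lt_card (rest_ssubset' hk)
    omega
  · by_contra hcon
    push Not at hcon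
    exact hXu (no_stuck_one he hT (fun s hs => hcon s hs) hXne)

/-- the count of rows, sum one -/
theorem count_one [NeZero n] {g : ZMod n → ℤ} (hg : IsSign g) (he : ∑ i, g i = 1)
    {X : Finset (ZMod n)} (hD : Data g X) (hre : Even X.card) :
    (X + TT g).card + 2 * ((CC g X).filter (fun k => EE g X k = 2)).card =
      X.card + (CC g X).card := by
  have h1 := sum_EE g X
  rw [he] at h1
  have h2 : ∀ k, EE g X k = (if k ∈ X + TT g then 1 else 0) - (if k ∈ CC g X then 1 else 0) +
      2 * (if k ∈ (CC g X).filter (fun k => EE g X k = 2) then (1 : ℤ) else 0) := by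
    intro k
    by_cases hk : k ∈ CC g X
    · have hk1 := CC_subset hD.hX hk
      have hm := meets_iff.mpr hk1
      have hp := EE_parity' hg X k
      have hc : (cov g X k).card = X.card := by
        congr 1
        unfold cov
        rw [Finset.filter_eq_self]
        unfold CC at hk
        rw [mem_filter] at hk
        exact hk.2
      rw [hc] at hp
      obtain ⟨t, ht⟩ := hre
      rcases hD.h012 k hm with h | h | h
      · rw [if_pos hk1, if_pos hk, if_neg (by rw [mem_filter, h]; simp)]
        rw [h]; norm_num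
      · exfalso
        rw [h, ht] at hp
        unfold Int.ModEq at hp
        push_cast at hp
        omega
      · rw [if_pos hk1, if_pos hk, if_pos (by rw [mem_filter, h]; exact ⟨hk, rfl⟩)]
        rw [h]; norm_num
    · by_cases hk1 : k ∈ X + TT g
      · have hm := meets_iff.mpr hk1
        have h3 : EE g X k = 1 := by
          by_contra hne
          apply hk
          unfold CC
          rw [mem_filter]
          exact ⟨mem_univ _, hD.hcov k hm hne⟩
        rw [if_pos hk1, if_neg hk, if_neg (by rw [mem_filter]; exact fun h => hk h.1), h3]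
        norm_num
      · rw [if_neg hk1, if_neg hk, if_neg (by rw [mem_filter]; exact fun h => hk h.1)]
        unfold EE
        rw [Finset.sum_eq_zero]
        · norm_num
        · intro l hl
          by_contra hne
          exact hk1 (meets_iff.mp ⟨l, hl, hne⟩)
  rw [Finset.sum_congr rfl (fun k _ => h2 k), Finset.sum_add_distrib, Finset.sum_sub_distrib,
    ← Finset.mul_sum, Finset.sum_ite_mem, Finset.sum_ite_mem, Finset.sum_ite_mem] at h1
  simp only [Finset.univ_inter, Finset.sum_const, nsmul_eq_mul, mul_one] at h1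
  have h3 : (((X + TT g).card + 2 * ((CC g X).filter (fun k => EE g X k = 2)).card : ℕ) : ℤ) =
      ((X.card + (CC g X).card : ℕ) : ℤ) := by
    push_cast
    linarith
  exact_mod_cast h3

/-- a set which is not everything and has at most one element without successor is an arithmetic
progression -/
theorem ap_explicit [Fact n.Prime] [NeZero n] {T : Finset (ZMod n)} {s : ZMod n} (hs : s ≠ 0)
    (hTne : T.Nonempty) (hTu : T ≠ univ) (hout : (out s T).card ≤ 1) :
    ∃ t0 : ZMod n, ∀ t : ZMod n, t ∈ T ↔ ∃ j : ℕ, j < T.card ∧ t = t0 + (j : ZMod n) * s := by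
  have hp : n.Prime := Fact.out
  -- every element is a multiple of `s`
  have hmul : ∀ a : ZMod n, ∃ i : ℕ, i < n ∧ a = (i : ZMod n) * s := by
    intro a
    refine ⟨(a * s⁻¹).val, ZMod.val_lt _, ?_⟩
    rw [ZMod.natCast_zmod_val, mul_assoc, inv_mul_cancel₀ hs, mul_one]
  have hinj : ∀ i j : ℕ, i < n → j < n → (i : ZMod n) * s = (j : ZMod n) * s → i = j := by
    intro i j hi hj h
    have h1 := mul_right_cancel₀ hs h
    have h2 := congrArg ZMod.val h1
    rwa [ZMod.val_natCast, ZMod.val_natCast, Nat.mod_eq_of_lt hi, Nat.mod_eq_of_lt hj] at h2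
  obtain ⟨z, hz⟩ : ∃ z, z ∉ T := by
    by_contra h
    push Not at h
    exact hTu (Finset.eq_univ_iff_forall.mpr h)
  -- walking up from an element of `T` one meets an element without successor
  have hwalk : ∀ t ∈ T, ∀ m : ℕ, t + (m : ZMod n) * s ∉ T →
      ∃ j : ℕ, j < m ∧ t + (j : ZMod n) * s ∈ out s T := by
    intro t ht m
    induction m with
    | zero => intro h; exact absurd ht (by simpa using h)
    | succ m ih =>
      intro h
      by_cases h1 : t + (m : ZMod n) * s ∈ T
      · refine ⟨m, Nat.lt_succ_self m, ?_⟩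
        unfold out
        refine Finset.mem_filter.mpr ⟨h1, ?_⟩
        have e : t + (m : ZMod n) * s + s = t + ((m + 1 : ℕ) : ZMod n) * s := by push_cast; ring
        rwa [e]
      · obtain ⟨j, hj, hj'⟩ := ih h1
        exact ⟨j, by omega, hj'⟩
  have hex : ∃ e, e ∈ out s T := by
    obtain ⟨t, ht⟩ := hTne
    obtain ⟨i, -, hi⟩ := hmul (z - t)
    obtain ⟨j, -, hj⟩ := hwalk t ht i (by rw [← hi]; simpa using hz)
    exact ⟨_, hj⟩
  obtain ⟨e, he⟩ := hex
  have huniq : ∀ x ∈ out s T, x = e := fun x hx => Finset.card_le_one.mp hout x hx e he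
  have heT : e ∈ T := (Finset.mem_filter.mp he).1
  -- the length
  have hL : ∃ L : ℕ, e - (L : ZMod n) * s ∉ T := by
    obtain ⟨i, -, hi⟩ := hmul (e - z)
    exact ⟨i, by rw [← hi]; simpa using hz⟩
  classical
  set L := Nat.find hL with hLdef
  have hL1 : e - (L : ZMod n) * s ∉ T := Nat.find_spec hL
  have hL2 : ∀ j < L, e - (j : ZMod n) * s ∈ T := by
    intro j hj
    by_contra h
    exact Nat.find_min hL hj h
  have hL0 : 0 < L := by
    rcases Nat.eq_zero_or_pos L with h | h
    · rw [h] at hL1
      exact absurd heT (by simpa using hL1)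
    · exact h
  have hLn : L < n := by
    obtain ⟨i, hi1, hi⟩ := hmul (e - z)
    have : L ≤ i := Nat.find_min' hL (by rw [← hi]; simpa using hz)
    omega
  have hmem : ∀ t, t ∈ T ↔ ∃ i : ℕ, i < L ∧ t = e - (i : ZMod n) * s := by
    intro t
    constructor
    · intro ht
      obtain ⟨i, hi1, hi⟩ := hmul (e - t)
      have hti : t = e - (i : ZMod n) * s := by rw [← hi]; ring
      refine ⟨i, ?_, hti⟩
      by_contra hcon
      push Not at hcon
      have h1 : t + ((i - L : ℕ) : ZMod n) * s = e - (L : ZMod n) * s := by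
        rw [Nat.cast_sub hcon, hti]
        ring
      obtain ⟨j, hj1, hj2⟩ := hwalk t ht (i - L) (by rw [h1]; exact hL1)
      have h2 := huniq _ hj2
      rw [hti] at h2
      have h3 : (j : ZMod n) * s = (i : ZMod n) * s := by
        have h4 : e - (i : ZMod n) * s + (j : ZMod n) * s = e := h2
        calc (j : ZMod n) * s = (e - (i : ZMod n) * s + (j : ZMod n) * s) - e + (i : ZMod n) * s := by
              ring
          _ = (i : ZMod n) * s := by rw [h4]; ring
      have h5 := hinj j i (by omega) hi1 h3
      omega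
    · rintro ⟨i, hi, rfl⟩
      exact hL2 i hi
  have hcard : T.card = L := by
    have h1 : T = (Finset.range L).image (fun i : ℕ => e - (i : ZMod n) * s) := by
      ext t
      rw [hmem, Finset.mem_image]
      constructor
      · rintro ⟨i, hi, rfl⟩
        exact ⟨i, Finset.mem_range.mpr hi, rfl⟩
      · rintro ⟨i, hi, rfl⟩
        exact ⟨i, Finset.mem_range.mp hi, rfl⟩
    rw [h1, Finset.card_image_of_injOn, Finset.card_range]
    intro i hi j hj hij
    rw [Finset.mem_coe, Finset.mem_range] at hi hj
    exact hinj i j (by omega) (by omega) (by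
      have := hij
      simp only at this
      exact sub_right_injective this)
  refine ⟨e - ((L - 1 : ℕ) : ZMod n) * s, fun t => ?_⟩
  rw [hmem, hcard]
  constructor
  · rintro ⟨i, hi, rfl⟩
    refine ⟨L - 1 - i, by omega, ?_⟩
    rw [Nat.cast_sub (by omega : i ≤ L - 1)]
    ring
  · rintro ⟨j, hj, rfl⟩
    refine ⟨L - 1 - j, by omega, ?_⟩
    rw [Nat.cast_sub (by omega : j ≤ L - 1)]
    ring

/-- the classification of the sign patterns of sum one and negative value -/
theorem alt_ap [Fact n.Prime] [NeZero n] (hodd : Odd n) {g : ZMod n → ℤ} (hg : IsSign g)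
    (he : ∑ i, g i = 1) (hT : 2 ≤ (TT g).card) (hTu : TT g ≠ univ) (hv : ¬ Val g univ 0) :
    ∃ (t0 s : ZMod n) (L : ℕ), s ≠ 0 ∧ Odd L ∧ 3 ≤ L ∧ L + 2 ≤ n ∧
      (∀ j : ℕ, j < L → g (t0 + (j : ZMod n) * s) = (-1) ^ j) ∧
      ∀ i, (∀ j : ℕ, j < L → i ≠ t0 + (j : ZMod n) * s) → g i = 0 := by
  have hp : n.Prime := Fact.out
  obtain ⟨X, hXu, hD, k₀, hk₀, hk₀1⟩ := min_rem_one he hT hTu hv
  -- the size of the support is odd
  have hTodd : Odd (TT g).card := by
    have h1 := card_TT hg
    rw [he] at h1
    exact ⟨(univ.filter (fun i => g i = -1)).card, by omega⟩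
  have hTlt : (TT g).card < n := by
    obtain ⟨x, hx⟩ : ∃ x, x ∉ TT g := by
      by_contra h
      push Not at h
      exact hTu (Finset.eq_univ_iff_forall.mpr h)
    have h4 := Finset.card_lt_univ_of_notMem hx
    simpa [ZMod.card] using h4
  have hTne : (TT g).Nonempty := Finset.card_pos.mp (by omega)
  -- `X` is even
  have hk₀C : k₀ ∈ CC g X := by
    unfold CC
    rw [mem_filter]
    exact ⟨mem_univ _, hD.hcov k₀ hk₀ hk₀1⟩
  have hXeven : Even X.card := by
    have h1 := EE_parity' hg X k₀
    have h2 : (cov g X k₀).card = X.card := by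
      congr 1
      unfold cov
      rw [Finset.filter_eq_self]
      exact hD.hcov k₀ hk₀ hk₀1
    rw [h2] at h1
    rcases hD.h012 k₀ hk₀ with h | h | h
    · rw [h] at h1
      unfold Int.ModEq at h1
      rw [Nat.even_iff]
      omega
    · exact absurd h hk₀1
    · rw [h] at h1
      unfold Int.ModEq at h1
      rw [Nat.even_iff]
      omega
  have hcount := count_one hg he hD hXeven
  have hXpos : 0 < X.card := Finset.card_pos.mpr hD.hX
  have hCne : (CC g X).Nonempty := ⟨k₀, hk₀C⟩
  -- the differences
  have hCX : (CC g X).card + X.card ≤ (TT g).card + 1 := by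
    have h1 : CC g X + (-X) ⊆ TT g := by
      have h2 : CC g X + (-X) = CC g X - X := by rw [sub_eq_add_neg]
      rw [h2]
      exact CC_sub_subset
    have h3 := Finset.card_le_card h1
    have h4 := cd_prime hCne (B := -X) (by simpa using hD.hX) (by omega)
    rw [Finset.card_neg] at h4
    omega
  have hXTlt : (X + TT g).card < n := by
    by_contra hcon
    have h1 : (X + TT g).card ≤ n := by
      have := Finset.card_le_univ (X + TT g)
      simpa [ZMod.card] using this
    obtain ⟨a, ha⟩ := hodd
    obtain ⟨b, hb⟩ := hTodd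
    omega
  have hXT := cd_prime hD.hX hTne hXTlt
  have hX2 : X.card = 2 := by
    obtain ⟨a, ha⟩ := hXeven
    omega
  have hm2 : ((CC g X).filter (fun k => EE g X k = 2)).card = 0 := by omega
  have hXT3 : (X + TT g).card = (TT g).card + 1 := by omega
  obtain ⟨x, x', hxx, hXe⟩ := Finset.card_eq_two.mp hX2
  set s : ZMod n := x' - x with hs
  have hs0 : s ≠ 0 := sub_ne_zero.mpr hxx.symm
  have hout : (out s (TT g)).card ≤ 1 := by
    have h1 : X + TT g = (TT g + {0, s}).image (fun z => z + x) := by
      ext z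
      rw [hXe, Finset.mem_image, Finset.mem_add]
      constructor
      · rintro ⟨y, hy, t, ht, rfl⟩
        rw [mem_insert, mem_singleton] at hy
        rcases hy with rfl | rfl
        · exact ⟨t, Finset.mem_add.mpr ⟨t, ht, 0, by simp, by ring⟩, by ring⟩
        · exact ⟨t + s, Finset.mem_add.mpr ⟨t, ht, s, by simp, rfl⟩, by rw [hs]; ring⟩
      · rintro ⟨w, hw, rfl⟩
        obtain ⟨t, ht, y, hy, rfl⟩ := Finset.mem_add.mp hw
        rw [mem_insert, mem_singleton] at hy
        rcases hy with rfl | rfl
        · exact ⟨x, by simp, t, ht, by ring⟩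
        · exact ⟨x', by simp, t, ht, by rw [hs]; ring⟩
    have h2 : (X + TT g).card = (TT g + {0, s}).card := by
      rw [h1]
      exact Finset.card_image_of_injective _ (add_left_injective x)
    rw [card_add_pair] at h2
    omega
  obtain ⟨t0, ht0⟩ := ap_explicit hs0 hTne hTu hout
  -- consecutive signs are opposite
  have hopp : ∀ t, t ∈ TT g → t + s ∈ TT g → g (t + s) = - g t := by
    intro t ht hts
    rw [mem_TT] at ht hts
    have hm : Meets g X (x' + t) := ⟨x', by rw [hXe]; simp, by simpa using ht⟩
    have hC : x' + t ∈ CC g X := by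
      unfold CC
      rw [mem_filter]
      refine ⟨mem_univ _, ?_⟩
      intro y hy
      rw [hXe, mem_insert, mem_singleton] at hy
      rcases hy with rfl | rfl
      · have e : x' + t - y = t + s := by rw [hs]; ring
        rw [e]
        exact hts
      · simpa using ht
    have hEE : EE g X (x' + t) = g (t + s) + g t := by
      unfold EE
      rw [hXe, Finset.sum_pair hxx]
      have e : x' + t - x = t + s := by rw [hs]; ring
      rw [e, add_sub_cancel_left]
    have h0 := hD.h012 _ hm
    have hpar : (EE g X (x' + t)) % 2 = 0 := by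
      rw [hEE]
      rcases hg t with h | h | h <;> rcases hg (t + s) with h' | h' | h' <;> simp_all
    rcases h0 with h | h | h
    · rw [hEE] at h
      linarith
    · rw [h] at hpar
      norm_num at hpar
    · exfalso
      have : x' + t ∈ (CC g X).filter (fun k => EE g X k = 2) := mem_filter.mpr ⟨hC, h⟩
      rw [Finset.card_eq_zero] at hm2
      rw [hm2] at this
      exact absurd this (Finset.notMem_empty _)
  have hsgn : ∀ j : ℕ, j < (TT g).card → g (t0 + (j : ZMod n) * s) = (-1) ^ j * g t0 := by
    intro j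
    induction j with
    | zero => intro _; simp
    | succ j ih =>
      intro hj
      have h1 : t0 + (j : ZMod n) * s ∈ TT g := (ht0 _).mpr ⟨j, by omega, rfl⟩
      have h2 : t0 + (j : ZMod n) * s + s ∈ TT g := (ht0 _).mpr ⟨j + 1, hj, by push_cast; ring⟩
      have h3 := hopp _ h1 h2
      rw [ih (by omega)] at h3
      have e : t0 + ((j + 1 : ℕ) : ZMod n) * s = t0 + (j : ZMod n) * s + s := by push_cast; ring
      rw [e, h3, pow_succ]
      ring
  -- the first sign is positive
  have hinj : ∀ i j : ℕ, i < n → j < n → (i : ZMod n) * s = (j : ZMod n) * s → i = j := by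
    intro i j hi hj h
    have h1 := mul_right_cancel₀ hs0 h
    have h2 := congrArg ZMod.val h1
    rwa [ZMod.val_natCast, ZMod.val_natCast, Nat.mod_eq_of_lt hi, Nat.mod_eq_of_lt hj] at h2
  have hsum : ∑ j ∈ Finset.range (TT g).card, ((-1 : ℤ)) ^ j * g t0 = 1 := by
    refine Eq.trans ?_ he
    have h1 : ∑ i, g i = ∑ i ∈ TT g, g i := by
      symm
      apply Finset.sum_subset (Finset.subset_univ _)
      intro i _ hi
      rw [mem_TT] at hi
      push Not at hi
      exact hi
    have h2 : TT g = (Finset.range (TT g).card).image (fun j : ℕ => t0 + (j : ZMod n) * s) := by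
      ext t
      rw [ht0, Finset.mem_image]
      constructor
      · rintro ⟨i, hi, rfl⟩
        exact ⟨i, Finset.mem_range.mpr hi, rfl⟩
      · rintro ⟨i, hi, rfl⟩
        exact ⟨i, Finset.mem_range.mp hi, rfl⟩
    rw [h1]
    have h3 : ∑ i ∈ TT g, g i =
        ∑ i ∈ (Finset.range (TT g).card).image (fun j : ℕ => t0 + (j : ZMod n) * s), g i := by
      rw [← h2]
    rw [h3, Finset.sum_image]
    · exact Finset.sum_congr rfl fun j hj => (hsgn j (Finset.mem_range.mp hj)).symm
    · intro i hi j hj hij
      rw [Finset.mem_coe, Finset.mem_range] at hi hj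
      exact hinj i j (by omega) (by omega) (by simpa using hij)
  have hg0 : g t0 = 1 := by
    rw [← Finset.sum_mul] at hsum
    have h1 : ∑ j ∈ Finset.range (TT g).card, ((-1 : ℤ)) ^ j = 1 := by
      rw [neg_one_geom_sum, if_neg (Nat.not_even_iff_odd.mpr hTodd)]
    rw [h1, one_mul] at hsum
    exact hsum
  refine ⟨t0, s, (TT g).card, hs0, hTodd, ?_, ?_, ?_, ?_⟩
  · obtain ⟨b, hb⟩ := hTodd
    omega
  · obtain ⟨a, ha⟩ := hodd
    obtain ⟨b, hb⟩ := hTodd
    omega
  · intro j hj
    rw [hsgn j hj, hg0, mul_one]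
  · intro i hi
    by_contra h
    obtain ⟨j, hj, hj'⟩ := (ht0 i).mp (mem_TT.mpr h)
    exact hi j hj hj'

end Pool.Agent.Helper77.FE
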