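import Pool.Agent.Helper21.FD.G6

/-!
MP_0aa406_nt, project FE (helper50), part (g) (helper77): the chain argument of `FD/G6` with the rank
of a breadth first search; only one fibre of rows is lost.
-/

set_option autoImplicit false

namespace Pool.Agent.Helper77.FE

open Finset Pool.Agent.Helper21.FC Pool.Agent.Helper21.FD
open scoped Pointwise

/-- distance from `0` in the Cayley graph of a generating set -/
theorem bfs {m : ℕ} [NeZero m] (S : Finset (ZMod m)) (h0 : 0 ∈ S)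
    (hgen : ∀ H : AddSubgroup (ZMod m), (∀ s ∈ S, s ∈ H) → H = ⊤) :
    ∃ J : ZMod m → ℕ, (∀ x, J x ≤ m) ∧ ∀ x, x ≠ 0 → ∃ s ∈ S, J (x - s) < J x := by
  classical
  obtain ⟨R, hR0, hRs⟩ : ∃ R : ℕ → Finset (ZMod m), R 0 = {0} ∧ ∀ j, R (j + 1) = R j + S :=
    ⟨fun j => Nat.rec {0} (fun _ r => r + S) j, rfl, fun _ => rfl⟩
  have hmono : ∀ j, R j ⊆ R (j + 1) := by
    intro j x hx
    rw [hRs]
    exact Finset.mem_add.mpr ⟨x, hx, 0, h0, add_zero x⟩
  have h0R : ∀ j, (0 : ZMod m) ∈ R j := by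
    intro j
    induction j with
    | zero => rw [hR0]; exact Finset.mem_singleton_self _
    | succ j ih => exact hmono j ih
  have hstable : ∀ j, R (j + 1) = R j → R j = univ := by
    intro j hj
    set H : AddSubgroup (ZMod m) :=
      { carrier := {h | ∀ y, y ∈ R j ↔ y + h ∈ R j}
        zero_mem' := by
          intro y
          rw [add_zero]
        add_mem' := by
          intro a b ha hb y
          rw [ha y, hb (y + a), add_assoc]
        neg_mem' := by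
          intro a ha y
          rw [ha (y + -a)]
          rw [neg_add_cancel_right] } with hH
    have hHtop : H = ⊤ := by
      apply hgen
      intro s hs
      change ∀ y, y ∈ R j ↔ y + s ∈ R j
      have h4 : (R j).image (fun y => y + s) ⊆ R j := by
        intro w hw
        obtain ⟨y, hy, rfl⟩ := Finset.mem_image.mp hw
        rw [← hj, hRs]
        exact Finset.mem_add.mpr ⟨y, hy, s, hs, rfl⟩
      have h5 : (R j).image (fun y => y + s) = R j := by
        apply Finset.eq_of_subset_of_card_le h4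
        rw [Finset.card_image_of_injective _ (add_left_injective s)]
      intro y
      constructor
      · intro hy
        exact h4 (Finset.mem_image_of_mem _ hy)
      · intro hy
        rw [← h5] at hy
        obtain ⟨z, hz, hzy⟩ := Finset.mem_image.mp hy
        have : z = y := add_left_injective s hzy
        rwa [← this]
    rw [Finset.eq_univ_iff_forall]
    intro z
    have h7 : z ∈ H := by rw [hHtop]; exact AddSubgroup.mem_top _
    have h8 := (h7 : ∀ y', y' ∈ R j ↔ y' + z ∈ R j) 0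
    rw [zero_add] at h8
    exact h8.mp (h0R j)
  have hcard : ∀ j, R j = univ ∨ j + 1 ≤ (R j).card := by
    intro j
    induction j with
    | zero => right; rw [hR0, Finset.card_singleton]
    | succ j ih =>
      by_cases h : R (j + 1) = R j
      · left; rw [h]; exact hstable j h
      · right
        have hss : R j ⊂ R (j + 1) := (hmono j).ssubset_of_ne (Ne.symm h)
        have h1 := Finset.card_lt_card hss
        rcases ih with h2 | h2
        · exfalso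
          rw [h2] at hss
          exact hss.2 (Finset.subset_univ _)
        · omega
  have huniv : R m = univ := by
    rcases hcard m with h | h
    · exact h
    · have := Finset.card_le_univ (R m)
      rw [ZMod.card] at this
      omega
  have hex : ∀ x : ZMod m, ∃ j, x ∈ R j := fun x => ⟨m, by rw [huniv]; exact Finset.mem_univ x⟩
  refine ⟨fun x => Nat.find (hex x), fun x => Nat.find_min' (hex x)
    (by rw [huniv]; exact Finset.mem_univ x), ?_⟩
  intro x hx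
  obtain ⟨j, hj⟩ : ∃ j, Nat.find (hex x) = j := ⟨_, rfl⟩
  have hxj : x ∈ R j := hj ▸ Nat.find_spec (hex x)
  cases j with
  | zero =>
    rw [hR0, Finset.mem_singleton] at hxj
    exact absurd hxj hx
  | succ j =>
    rw [hRs] at hxj
    obtain ⟨y, hy, s, hs, hys⟩ := Finset.mem_add.mp hxj
    refine ⟨s, hs, ?_⟩
    have h1 : x - s = y := by rw [← hys, add_sub_cancel_right]
    change Nat.find (hex (x - s)) < Nat.find (hex x)
    rw [hj]
    have h2 : Nat.find (hex (x - s)) ≤ j := Nat.find_min' _ (by rw [h1]; exact hy)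
    omega

/-! ### the real core -/

theorem bfs_core {m k : ℕ} [NeZero m] [NeZero k] (hmk : m ∣ k) (a v : ZMod k → ℝ)
    (t0 : ZMod m) (h0 : ∀ t, t ≠ t0 → qt m a t = 0) (J : ZMod m → ℕ)
    (hJ1 : ∀ i, J i ≤ m)
    (hJ2 : ∀ x, x ≠ 0 → ∃ t1, (∃ c, a c ≠ 0 ∧ pr m c = t1) ∧ J (x - (t1 - t0)) < J x)
    (hc0 : ∃ c, a c ≠ 0 ∧ pr m c = t0)
    (hv : ∀ i, 0 < v i)
    (hgen : ∀ u : ZMod k, ∀ i : ZMod k, a (u - i) ≠ 0 → G6_b m a v u (pr m i) ≠ 0)
    (β M Δ L : ℝ) (hL : 1 ≤ L)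
    (hbM : ∀ u g, |G6_b m a v u g| ≤ M) (hbβ : ∀ u g, G6_b m a v u g ≠ 0 → β ≤ |G6_b m a v u g|)
    (hAM : |qt m a t0| ≤ M) (hAβ : qt m a t0 ≠ 0 → β ≤ |qt m a t0|)
    (hΔ : m * M < Δ * β) (hΔv : ∀ i, v i < Δ) (hLΔ : (m + Δ) * M < L * β) :
    ∃ ε : ℝ, (ε = 1 ∨ ε = -1) ∧
      (∀ i, 0 < L ^ (m * m + m - (J (pr m i) * m + (pr m i).val)) * (Δ + ε * v i)) ∧
      (∀ u, act a (fun i => L ^ (m * m + m - (J (pr m i) * m + (pr m i).val)) *
        (Δ + ε * v i)) u ≠ 0) ∧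
      (k : ℝ) - (k / m : ℕ) ≤
        ((∑ i : ZMod k, sg (L ^ (m * m + m - (J (pr m i) * m + (pr m i).val)) * (Δ + ε * v i)) -
          ∑ u, sg (act a (fun i => L ^ (m * m + m - (J (pr m i) * m + (pr m i).val)) *
            (Δ + ε * v i)) u) : ℤ) : ℝ) := by
  classical
  have hL0 : 0 < L := lt_of_lt_of_le one_pos hL
  have hm : 0 < m := Nat.pos_of_ne_zero (NeZero.ne m)
  have hM0 : 0 ≤ M := le_trans (abs_nonneg _) hAM
  have hΔ0 : 0 < Δ := lt_trans (hv 0) (hΔv 0)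
  obtain ⟨rk, hrk⟩ : ∃ rk : ZMod m → ℕ, ∀ g, rk g = J g * m + g.val := ⟨_, fun _ => rfl⟩
  have hval : ∀ g : ZMod m, g.val < m := fun g => ZMod.val_lt g
  have hinj : Function.Injective rk := by
    intro g g' hg
    rw [hrk, hrk] at hg
    have h1 : (J g * m + g.val) % m = (J g' * m + g'.val) % m := by rw [hg]
    rw [Nat.mul_add_mod', Nat.mul_add_mod', Nat.mod_eq_of_lt (hval g),
      Nat.mod_eq_of_lt (hval g')] at h1
    exact ZMod.val_injective m h1
  have hrkR : ∀ g, rk g < m * m + m := by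
    intro g
    rw [hrk]
    have h2 : J g * m ≤ m * m := Nat.mul_le_mul_right m (hJ1 g)
    have h3 := hval g
    omega
  simp only [← hrk]
  obtain ⟨R, hR⟩ : ∃ R, R = m * m + m := ⟨_, rfl⟩
  rw [← hR] at hrkR ⊢
  have hstep : ∀ x : ZMod m, x ≠ 0 → ∃ t1, (∃ c, a c ≠ 0 ∧ pr m c = t1) ∧
      rk (x - (t1 - t0)) < rk x := by
    intro x hx
    obtain ⟨t1, ht1, h1⟩ := hJ2 x hx
    refine ⟨t1, ht1, ?_⟩
    rw [hrk, hrk]
    have h3 := hval (x - (t1 - t0))
    have h4 : (J (x - (t1 - t0)) + 1) * m ≤ J x * m := Nat.mul_le_mul_right m h1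
    rw [Nat.add_mul, one_mul] at h4
    omega
  obtain ⟨y, hy⟩ : ∃ y : ℝ → ZMod k → ℝ, ∀ ε i, y ε i = L ^ (R - rk (pr m i)) * (Δ + ε * v i) :=
    ⟨_, fun _ _ => rfl⟩
  have hy' : ∀ ε, (fun i => L ^ (R - rk (pr m i)) * (Δ + ε * v i)) = y ε := by
    intro ε
    funext i
    rw [hy]
  simp only [hy']
  simp only [← hy]
  obtain ⟨P, hP⟩ : ∃ P : ZMod k → ℝ, ∀ u, P u =
    Δ * (L ^ (R - rk (pr m u - t0)) * qt m a t0) := ⟨_, fun _ => rfl⟩
  obtain ⟨S, hS⟩ : ∃ S : ZMod k → ℝ, ∀ u, S u =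
    ∑ g, L ^ (R - rk g) * G6_b m a v u g := ⟨_, fun _ => rfl⟩
  have hrow : ∀ ε u, act a (y ε) u = P u + ε * S u := by
    intro ε u
    rw [← hy', G6_row hmk a v (fun g => L ^ (R - rk g)) Δ ε t0 h0 u, hP, hS]
  -- the two elements of the support of a row
  have hmem0 : ∀ u, G6_b m a v u (pr m u - t0) ≠ 0 := by
    intro u
    obtain ⟨c, hc, hct⟩ := hc0
    have h1 := hgen u (u - c) (by rwa [sub_sub_cancel])
    rwa [pr_sub hmk, hct] at h1
  have hmem1 : ∀ u t1, (∃ c, a c ≠ 0 ∧ pr m c = t1) →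
      G6_b m a v u (pr m u - t0 - (t1 - t0)) ≠ 0 := by
    intro u t1 hc1
    obtain ⟨c, hc, hct⟩ := hc1
    have h1 := hgen u (u - c) (by rwa [sub_sub_cancel])
    rw [pr_sub hmk, hct] at h1
    rwa [show pr m u - t0 - (t1 - t0) = pr m u - t1 by ring]
  have hlead : ∀ u, ∃ g0, G6_b m a v u g0 ≠ 0 ∧ ∀ g, G6_b m a v u g ≠ 0 → rk g0 ≤ rk g := by
    intro u
    obtain ⟨g0, hg0, hmin⟩ := Finset.exists_min_image
      (univ.filter (fun g => G6_b m a v u g ≠ 0)) rk ⟨pr m u - t0, by simpa using hmem0 u⟩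
    refine ⟨g0, by simpa using hg0, fun g hg => hmin g (by simpa using hg)⟩
  have hcard : (Fintype.card (ZMod m) : ℝ) = m := by rw [ZMod.card]
  have hPabs : ∀ u, |P u| = Δ * (L ^ (R - rk (pr m u - t0)) * |qt m a t0|) := by
    intro u
    rw [hP, abs_mul, abs_mul, abs_of_pos hΔ0, abs_of_pos (pow_pos hL0 _)]
  -- domination by the second part
  have hdom : ∀ u, ∀ g0, G6_b m a v u g0 ≠ 0 → (∀ g, G6_b m a v u g ≠ 0 → rk g0 ≤ rk g) →
      rk g0 < rk (pr m u - t0) → |P u| < |S u| := by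
    intro u g0 hg0 hmin hlt
    have h1 := G6_lower (G6_b m a v u) rk hinj L β M R hL (hbM u) g0 (hrkR g0) (hbβ u g0 hg0) hmin
    rw [hcard, ← hS] at h1
    refine lt_of_lt_of_le ?_ h1
    have hT : 0 < L ^ (R - rk g0 - 1) := pow_pos hL0 _
    rw [hPabs]
    calc Δ * (L ^ (R - rk (pr m u - t0)) * |qt m a t0|)
        ≤ Δ * (L ^ (R - rk g0 - 1) * M) := by
          refine mul_le_mul_of_nonneg_left ?_ hΔ0.le
          exact mul_le_mul (pow_le_pow_right₀ hL (by omega)) hAM (abs_nonneg _) hT.le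
      _ = L ^ (R - rk g0 - 1) * (Δ * M) := by ring
      _ < L ^ (R - rk g0 - 1) * (L * β - m * M) := by
          refine mul_lt_mul_of_pos_left ?_ hT
          linarith
  have hone : ∀ u, pr m u ≠ t0 → |P u| < |S u| := by
    intro u hu
    obtain ⟨g0, hg0, hmin⟩ := hlead u
    obtain ⟨t1, ht1, hst⟩ := hstep (pr m u - t0) (sub_ne_zero.mpr hu)
    exact hdom u g0 hg0 hmin (lt_of_le_of_lt (hmin _ (hmem1 u t1 ht1)) hst)
  have hne : ∀ u, |P u| ≠ |S u| := by
    intro u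
    obtain ⟨g0, hg0, hmin⟩ := hlead u
    rcases lt_or_eq_of_le (hmin _ (hmem0 u)) with h1 | h1
    · exact (hdom u g0 hg0 hmin h1).ne
    · by_cases hA : qt m a t0 = 0
      · have h2 := G6_lower (G6_b m a v u) rk hinj L β M R hL (hbM u) g0 (hrkR g0)
          (hbβ u g0 hg0) hmin
        rw [hcard, ← hS] at h2
        have hT : 0 < L ^ (R - rk g0 - 1) := pow_pos hL0 _
        have h3 : 0 < L * β - m * M := by
          have : 0 ≤ Δ * M := mul_nonneg hΔ0.le hM0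
          linarith
        rw [hPabs, hA, abs_zero, mul_zero, mul_zero]
        exact (lt_of_lt_of_le (mul_pos hT h3) h2).ne
      · have h2 := G6_upper (G6_b m a v u) rk L M R hL (hbM u) g0 hmin
        rw [hcard, ← hS, h1] at h2
        have hT : 0 < L ^ (R - rk (pr m u - t0)) := pow_pos hL0 _
        refine (lt_of_le_of_lt h2 ?_).ne'
        rw [hPabs]
        calc L ^ (R - rk (pr m u - t0)) * (m * M)
            < L ^ (R - rk (pr m u - t0)) * (Δ * β) := mul_lt_mul_of_pos_left hΔ hT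
          _ ≤ L ^ (R - rk (pr m u - t0)) * (Δ * |qt m a t0|) :=
              mul_le_mul_of_nonneg_left (mul_le_mul_of_nonneg_left (hAβ hA) hΔ0.le) hT.le
          _ = Δ * (L ^ (R - rk (pr m u - t0)) * |qt m a t0|) := by ring
  have hpos : ∀ ε : ℝ, (ε = 1 ∨ ε = -1) → ∀ i, 0 < y ε i := by
    intro ε hε i
    rw [hy]
    refine mul_pos (pow_pos hL0 _) ?_
    have h1 := hv i
    have h2 := hΔv i
    rcases hε with h | h <;> rw [h] <;> linarith
  have hrow1 : ∀ u, act a (y 1) u = P u + S u := fun u => by rw [hrow, one_mul]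
  have hrow2 : ∀ u, act a (y (-1)) u = P u - S u := fun u => by rw [hrow]; ring
  have hsgy : ∀ ε : ℝ, (ε = 1 ∨ ε = -1) → ∑ i, sg (y ε i) = (k : ℤ) := by
    intro ε hε
    rw [Finset.sum_congr rfl fun i _ => G6_sg_pos (hpos ε hε i), Finset.sum_const, Finset.card_univ,
      ZMod.card]
    simp
  have hsum : ∑ u, sg (act a (y 1) u) + ∑ u, sg (act a (y (-1)) u) ≤
      2 * ((univ.filter (fun u : ZMod k => pr m u = t0)).card : ℤ) := by
    rw [← Finset.sum_add_distrib]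
    calc ∑ u, (sg (act a (y 1) u) + sg (act a (y (-1)) u))
        ≤ ∑ u : ZMod k, (if pr m u = t0 then (2 : ℤ) else 0) := by
          refine Finset.sum_le_sum fun u _ => ?_
          rw [hrow1, hrow2]
          by_cases hu : pr m u = t0
          · rw [if_pos hu]
            have h1 := G6_sg_le (P u + S u)
            have h2 := G6_sg_le (P u - S u)
            linarith
          · rw [if_neg hu, G6_sg_cancel (hone u hu)]
      _ = _ := by
          rw [← Finset.sum_filter, Finset.sum_const, nsmul_eq_mul, mul_comm]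
  have hN : ((univ.filter (fun u : ZMod k => pr m u = t0)).card : ℝ) ≤ (k / m : ℕ) := by
    rw [card_fibre hmk t0]
  have hsumR : ((∑ u, sg (act a (y 1) u) : ℤ) : ℝ) + ((∑ u, sg (act a (y (-1)) u) : ℤ) : ℝ) ≤
      2 * ((univ.filter (fun u : ZMod k => pr m u = t0)).card : ℝ) := by
    exact_mod_cast hsum
  by_cases hV : (k : ℝ) - (k / m : ℕ) ≤ ((∑ i, sg (y 1 i) - ∑ u, sg (act a (y 1) u) : ℤ) : ℝ)
  · exact ⟨1, Or.inl rfl, hpos 1 (Or.inl rfl), fun u => by rw [hrow1]; exact (G6_ne (hne u)).1, hV⟩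
  · refine ⟨-1, Or.inr rfl, hpos (-1) (Or.inr rfl),
      fun u => by rw [hrow2]; exact (G6_ne (hne u)).2, ?_⟩
    rw [hsgy 1 (Or.inl rfl), Int.cast_sub, Int.cast_natCast] at hV
    rw [hsgy (-1) (Or.inr rfl), Int.cast_sub, Int.cast_natCast]
    push Not at hV
    linarith

/-- the fibre sums over `ZMod m` have at most one nonzero entry, but the differences of the projection
of the support of `a` generate `ZMod m`: only one fibre is lost -/
theorem chain_bfs (k B m : ℕ) [NeZero k] [NeZero m] (hmk : m ∣ k) : ∃ B1 : ℕ, ∀ p : ℕ, p.Prime →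
    ∀ a : ZMod k → ℝ, (∀ t, Alg p k B (a t)) → ¬ Two (qt m a) →
    (∃ c, a c ≠ 0) → (∀ H : AddSubgroup (ZMod m),
      (∀ c c', a c ≠ 0 → a c' ≠ 0 → pr m c - pr m c' ∈ H) → H = ⊤) →
      AVal p k B1 a (k - (k / m : ℕ)) := by
  classical
  obtain ⟨Bv, hBv⟩ : ∃ Bv : ℕ, Bv = (k * m * k + 1) * k := ⟨_, rfl⟩
  obtain ⟨b0, hb0⟩ := liouville k (B + Bv + k + 1 + k)
  obtain ⟨b1, hb1⟩ : ∃ b1 : ℕ, b1 = B + Bv + k + 1 + k + k + 1 := ⟨_, rfl⟩
  obtain ⟨E1, hE1⟩ : ∃ E1 : ℕ, E1 = m + (b1 + b0) + (Bv + 1) := ⟨_, rfl⟩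
  obtain ⟨E2, hE2⟩ : ∃ E2 : ℕ, E2 = (E1 + 1) + (b1 + b0) := ⟨_, rfl⟩
  refine ⟨E2 * (m * m + m) + E1 + 1, fun p hp a ha hTwo hcc hgen0 => ?_⟩
  have hp2 : 2 ≤ p := hp.two_le
  have hpR1 : (1 : ℝ) ≤ p := by exact_mod_cast (by omega : 1 ≤ p)
  have hpR2 : (2 : ℝ) ≤ p := by exact_mod_cast hp2
  have hpR0 : (0 : ℝ) < p := by linarith
  obtain ⟨c, hc⟩ := hcc
  obtain ⟨t0, h0, hc0⟩ : ∃ t0, (∀ t, t ≠ t0 → qt m a t = 0) ∧ ∃ c, a c ≠ 0 ∧ pr m c = t0 := by
    by_cases hA : ∃ t, qt m a t ≠ 0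
    · obtain ⟨t, ht⟩ := hA
      refine ⟨t, fun t' ht' => ?_, ?_⟩
      · by_contra h
        exact hTwo ⟨t', t, ht', h, ht⟩
      · unfold qt at ht
        obtain ⟨d, hd, hd1⟩ := Finset.exists_ne_zero_of_sum_ne_zero ht
        exact ⟨d, hd1, by simpa using hd⟩
    · push Not at hA
      exact ⟨pr m c, fun t _ => hA t, c, hc, rfl⟩
  obtain ⟨J, hJ1, hJ2⟩ := bfs ((univ.filter (fun c : ZMod k => a c ≠ 0)).image
      (fun c => pr m c - t0)) (by
    obtain ⟨d, hd, hdt⟩ := hc0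
    exact Finset.mem_image.mpr ⟨d, by simpa using hd, by rw [hdt, sub_self]⟩) (by
    intro H hH
    apply hgen0 H
    intro c1 c2 h1 h2
    have h3 := H.sub_mem (hH (pr m c1 - t0) (Finset.mem_image.mpr ⟨c1, by simpa using h1, rfl⟩))
      (hH (pr m c2 - t0) (Finset.mem_image.mpr ⟨c2, by simpa using h2, rfl⟩))
    rwa [sub_sub_sub_cancel_right] at h3)
  have hJ2' : ∀ x, x ≠ 0 → ∃ t1, (∃ c, a c ≠ 0 ∧ pr m c = t1) ∧ J (x - (t1 - t0)) < J x := by
    intro x hx
    obtain ⟨s, hs, hlt⟩ := hJ2 x hx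
    obtain ⟨d, hd, rfl⟩ := Finset.mem_image.mp hs
    exact ⟨pr m d, ⟨d, by simpa using hd, rfl⟩, hlt⟩
  -- a generic point
  obtain ⟨s0, hs1, hs2, hs3⟩ :=
    generic (F := {f : ZMod k × ZMod m // ∃ i, pr m i = f.2 ∧ a (f.1 - i) ≠ 0})
      (fun f i => if pr m i = f.1.2 then a (f.1.1 - i) else 0) (fun f => by
        obtain ⟨i, hi, hi'⟩ := f.2
        exact ⟨i, by rw [if_pos hi]; exact hi'⟩)
  have hcardF : Fintype.card {f : ZMod k × ZMod m // ∃ i, pr m i = f.2 ∧ a (f.1 - i) ≠ 0} ≤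
      k * m := by
    refine le_trans (Fintype.card_subtype_le _) ?_
    rw [Fintype.card_prod, ZMod.card, ZMod.card]
  have hs4 : s0 ≤ k * m * k + 1 :=
    le_trans hs2 (Nat.add_le_add_right (Nat.mul_le_mul_right k hcardF) 1)
  have hvN : ∀ i : ZMod k, s0 ^ i.val ≤ p ^ Bv := by
    intro i
    have h1 : s0 ≤ p ^ (k * m * k + 1) :=
      le_trans hs4 (le_trans Nat.lt_two_pow_self.le (Nat.pow_le_pow_left hp2 _))
    calc s0 ^ i.val ≤ (p ^ (k * m * k + 1)) ^ i.val := Nat.pow_le_pow_left h1 _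
      _ = p ^ ((k * m * k + 1) * i.val) := (pow_mul _ _ _).symm
      _ ≤ p ^ Bv := by
          refine Nat.pow_le_pow_right (by omega) ?_
          rw [hBv]
          exact Nat.mul_le_mul_left _ (ZMod.val_lt i).le
  obtain ⟨v, hv⟩ : ∃ v : ZMod k → ℝ, ∀ i, v i = (s0 : ℝ) ^ i.val := ⟨_, fun _ => rfl⟩
  have hvpos : ∀ i, 0 < v i := by
    intro i
    rw [hv]
    exact pow_pos (by exact_mod_cast hs1) _
  have hvle : ∀ i, v i ≤ (p : ℝ) ^ Bv := by
    intro i
    rw [hv]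
    exact_mod_cast hvN i
  have hgen : ∀ u : ZMod k, ∀ i : ZMod k, a (u - i) ≠ 0 → G6_b m a v u (pr m i) ≠ 0 := by
    intro u i hi
    have h1 := hs3 ⟨(u, pr m i), i, rfl, hi⟩
    unfold G6_b
    simp only [hv]
    exact h1
  have hbAlg : ∀ u g, Alg p k (B + Bv + k + 1 + k) (G6_b m a v u g) := by
    intro u g
    have h1 : ∀ i ∈ (univ : Finset (ZMod k)),
        Alg p k (B + Bv + k + 1) ((if pr m i = g then a (u - i) else 0) * v i) := by
      intro i _
      refine Alg.mul hp2 ?_ ?_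
      · by_cases hi : pr m i = g
        · rw [if_pos hi]
          exact ha _
        · rw [if_neg hi]
          exact Alg.mono hp2 (Nat.zero_le B) alg_zero
      · have h2 : v i = (((s0 : ℤ) ^ i.val : ℤ) : ℝ) := by
          rw [hv]
          push_cast
          rfl
        rw [h2]
        refine alg_int Bv _ ?_
        rw [abs_of_nonneg (by positivity)]
        exact_mod_cast hvN i
    have h2 := Alg.sum hp2 univ (fun i => (if pr m i = g then a (u - i) else 0) * v i) h1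
    rw [Finset.card_univ, ZMod.card] at h2
    exact h2
  have hAAlg : Alg p k (B + Bv + k + 1 + k) (qt m a t0) :=
    Alg.mono hp2 (by omega) (alg_qt hp2 a ha t0)
  have hmp : (m : ℝ) < (p : ℝ) ^ m := by
    have : m < p ^ m := Nat.lt_pow_self (by omega)
    exact_mod_cast this
  have hmE : (m : ℝ) < (p : ℝ) ^ E1 :=
    lt_of_lt_of_le hmp (pow_le_pow_right₀ hpR1 (by omega))
  obtain ⟨ε, hε, hpos, hne, hval⟩ := bfs_core hmk a v t0 h0 J hJ1 hJ2'
    hc0 hvpos hgen (((p : ℝ) ^ b0)⁻¹) ((p : ℝ) ^ b1) ((p : ℝ) ^ E1) ((p : ℝ) ^ E2)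
    (one_le_pow₀ hpR1)
    (fun u g => by rw [hb1]; exact Alg.abs_le hp2 (hbAlg u g))
    (fun u g h => hb0 p hp _ (hbAlg u g) h)
    (by rw [hb1]; exact Alg.abs_le hp2 hAAlg)
    (fun h => hb0 p hp _ hAAlg h)
    (by
      rw [lt_mul_inv_iff₀ (pow_pos hpR0 _), mul_assoc, ← pow_add]
      calc (m : ℝ) * (p : ℝ) ^ (b1 + b0) < (p : ℝ) ^ m * (p : ℝ) ^ (b1 + b0) :=
            mul_lt_mul_of_pos_right hmp (pow_pos hpR0 _)
        _ = (p : ℝ) ^ (m + (b1 + b0)) := (pow_add _ _ _).symm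
        _ ≤ (p : ℝ) ^ E1 := pow_le_pow_right₀ hpR1 (by omega))
    (fun i => lt_of_le_of_lt (hvle i) (pow_lt_pow_right₀ (by linarith) (by omega)))
    (by
      rw [lt_mul_inv_iff₀ (pow_pos hpR0 _), mul_assoc, ← pow_add]
      calc ((m : ℝ) + (p : ℝ) ^ E1) * (p : ℝ) ^ (b1 + b0)
          < ((p : ℝ) ^ E1 * 2) * (p : ℝ) ^ (b1 + b0) :=
            mul_lt_mul_of_pos_right (by linarith) (pow_pos hpR0 _)
        _ ≤ ((p : ℝ) ^ E1 * p) * (p : ℝ) ^ (b1 + b0) :=
            mul_le_mul_of_nonneg_right (mul_le_mul_of_nonneg_left hpR2 (pow_pos hpR0 _).le)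
              (pow_pos hpR0 _).le
        _ = (p : ℝ) ^ E2 := by rw [← pow_succ, ← pow_add, hE2])
  refine ⟨fun i => ((p : ℝ) ^ E2) ^ (m * m + m - (J (pr m i) * m + (pr m i).val)) *
    ((p : ℝ) ^ E1 + ε * v i), fun i => ?_, fun i => (hpos i).ne', hne, hval⟩
  have hw : ∃ w : ℤ, |w| ≤ (p : ℤ) ^ E1 ∧ ε * v i = (w : ℝ) := by
    have h1 : |((s0 : ℤ) ^ i.val)| ≤ (p : ℤ) ^ E1 := by
      rw [abs_of_nonneg (by positivity)]
      exact_mod_cast le_trans (hvN i) (Nat.pow_le_pow_right (by omega) (by omega))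
    rcases hε with h | h
    · exact ⟨(s0 : ℤ) ^ i.val, h1, by rw [h, hv, one_mul]; push_cast; rfl⟩
    · exact ⟨-((s0 : ℤ) ^ i.val), by rwa [abs_neg], by rw [h, hv, neg_one_mul]; push_cast; rfl⟩
  obtain ⟨w, hw1, hw2⟩ := hw
  have h2 : ((p : ℝ) ^ E2) ^ (m * m + m - (J (pr m i) * m + (pr m i).val)) *
      ((p : ℝ) ^ E1 + ε * v i) =
      ((((p : ℤ) ^ E2) ^ (m * m + m - (J (pr m i) * m + (pr m i).val)) *
        ((p : ℤ) ^ E1 + w) : ℤ) : ℝ) := by
    rw [hw2]
    push_cast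
    rfl
  beta_reduce
  rw [h2]
  exact alg_int _ _ (G6_size hp2 (Nat.sub_le _ _) w hw1)

end Pool.Agent.Helper77.FE
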