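import Pool.Agent.Helper77.KZ.Game
import Pool.Agent.Helper77.FE.C3

/-!
MP_0aa406_nt, project FE (helper50), part (h) (helper77): the sign pattern game on `Z / n` for patterns
whose support generates, in particular on `Z / l ^ 2`.
-/

set_option autoImplicit false

namespace Pool.Agent.Helper77.FE

open Finset Pool.Agent.Helper77.KZ
open scoped Pointwise

variable {n : ℕ}

/-- the differences of the support generate `Z / n` -/
def Gen (g : ZMod n → ℤ) : Prop :=
  ∀ H : AddSubgroup (ZMod n), (∀ t t', g t ≠ 0 → g t' ≠ 0 → t - t' ∈ H) → H = ⊤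

theorem val_nonpos [NeZero n] {g : ZMod n → ℤ} (hg : IsSign g) (he : ∑ i, g i ≤ 0)
    (hne : ∃ i, g i ≠ 0) : Val g univ 0 := by
  obtain ⟨i, hi⟩ := hne
  have hT : (TT g).Nonempty := ⟨i, mem_TT.mpr hi⟩
  have key : ∀ Y : Finset (ZMod n), Stuck g Y → Y = ∅ := by
    intro Y hY
    by_contra h
    have hYne : Y.Nonempty := Finset.nonempty_iff_ne_empty.mpr h
    have h1 := stuck_card hY
    have h2 : 0 < (Y + TT g).card := Finset.card_pos.mpr (hYne.add hT)
    have h3 : (Y.card : ℤ) * ∑ i, g i ≤ 0 := mul_nonpos_of_nonneg_of_nonpos (by positivity) he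
    omega
  obtain ⟨A, -, hA, q, hq, hc⟩ := claim hg 1 one_pos (by
    intro Y hY
    exact absurd (key Y hY.2.1) (Finset.nonempty_iff_ne_empty.mp hY.1)) univ
  rw [key A hA] at hc
  simp only [Finset.empty_add, Finset.card_empty, Nat.le_zero_eq, one_mul] at hc
  rw [hc] at hq
  simpa using hq

/-- a nonempty stuck set is everything if the sum is one and the support generates -/
theorem stuck_gen [NeZero n] {g : ZMod n → ℤ} (he : ∑ i, g i = 1) (hgen : Gen g)
    {Y : Finset (ZMod n)} (hY : Stuck g Y) (hne : Y.Nonempty) : Y = univ := by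
  classical
  have h1 := stuck_card hY
  rw [he, mul_one] at h1
  have h2 : (Y + TT g).card = Y.card := by exact_mod_cast h1
  have h3 : ∀ t, g t ≠ 0 → ∀ z, z ∈ Y + TT g ↔ z - t ∈ Y := by
    intro t ht z
    have h4 : Y.image (fun y => y + t) ⊆ Y + TT g := by
      intro w hw
      obtain ⟨y, hy, rfl⟩ := Finset.mem_image.mp hw
      exact Finset.mem_add.mpr ⟨y, hy, t, mem_TT.mpr ht, rfl⟩
    have h5 : Y.image (fun y => y + t) = Y + TT g := by
      apply Finset.eq_of_subset_of_card_le h4
      rw [h2, Finset.card_image_of_injective _ (add_left_injective t)]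
    rw [← h5, Finset.mem_image]
    constructor
    · rintro ⟨y, hy, rfl⟩
      simpa using hy
    · intro hz
      exact ⟨z - t, hz, by ring⟩
  set H : AddSubgroup (ZMod n) :=
    { carrier := {h | ∀ y, y ∈ Y ↔ y + h ∈ Y}
      zero_mem' := by
        intro y
        rw [add_zero]
      add_mem' := by
        intro a b ha hb y
        rw [ha y, hb (y + a), add_assoc]
      neg_mem' := by
        intro a ha y
        rw [ha (y + -a)]
        rw [neg_add_cancel_right] } with hH
  have hHtop : H = ⊤ := by
    apply hgen
    intro t t' ht ht'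
    change ∀ y, y ∈ Y ↔ y + (t - t') ∈ Y
    intro y
    have h6 := (h3 t ht (y + t)).symm.trans (h3 t' ht' (y + t))
    rw [add_sub_cancel_right] at h6
    rw [h6, add_sub_assoc]
  obtain ⟨y, hy⟩ := hne
  rw [Finset.eq_univ_iff_forall]
  intro z
  have h7 : z - y ∈ H := by rw [hHtop]; exact AddSubgroup.mem_top _
  have h8 := (h7 : ∀ y', y' ∈ Y ↔ y' + (z - y) ∈ Y) y
  rw [add_sub_cancel] at h8
  exact h8.mp hy

theorem val_one_gen [NeZero n] {g : ZMod n → ℤ} (hg : IsSign g) (he : ∑ i, g i = 1)
    (hgen : Gen g) : Val g univ (-1) := by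
  have hn : 0 < n := NeZero.pos n
  obtain ⟨i, hi⟩ : ∃ i, g i ≠ 0 := by
    by_contra h
    push Not at h
    rw [Finset.sum_eq_zero fun i _ => h i] at he
    norm_num at he
  have hT : (TT g).Nonempty := ⟨i, mem_TT.mpr hi⟩
  obtain ⟨A, -, hA, q, hq, hc⟩ := claim hg n hn (by
    intro Y hY _ hlt _
    exfalso
    have h1 := stuck_gen he hgen hY.2.1 hY.1
    subst h1
    have h2 : univ ⊆ univ + TT g := by
      intro z _
      exact Finset.mem_add.mpr ⟨z - i, Finset.mem_univ _, i, mem_TT.mpr hi, by ring⟩
    have h3 := Finset.card_le_card h2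
    rw [Finset.card_univ, ZMod.card] at h3
    omega) univ
  have h4 : (A + TT g).card ≤ n := by
    have := Finset.card_le_univ (A + TT g)
    simpa [ZMod.card] using this
  have h5 : q ≤ 1 := by
    by_contra h
    push Not at h
    nlinarith
  refine Val.mono hq ?_
  have : (q : ℤ) ≤ 1 := by exact_mod_cast h5
  linarith

/-- two positive entries whose difference is a unit, `n` odd: one row is lost -/
theorem val_pair [NeZero n] (hodd : Odd n) {g : ZMod n → ℤ} {a δ : ZMod n} (hδ : IsUnit δ)
    (hg : ∀ i, g i = if i = a ∨ i = a + δ then 1 else 0) (hn : 1 < n) : Val g univ (-1) := by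
  classical
  obtain ⟨m, hm⟩ := hodd
  have hδ0 : δ ≠ 0 := by
    intro h
    rw [h] at hδ
    have h1 := isUnit_zero_iff.mp hδ
    have : Fact (1 < n) := ⟨hn⟩
    exact zero_ne_one h1
  have hinj : ∀ i j : ℕ, i < n → j < n → (i : ZMod n) * δ = (j : ZMod n) * δ → i = j := by
    intro i j hi hj h
    have h1 := hδ.mul_right_cancel h
    have h2 := congrArg ZMod.val h1
    rwa [ZMod.val_natCast, ZMod.val_natCast, Nat.mod_eq_of_lt hi, Nat.mod_eq_of_lt hj] at h2
  set U : ℕ → Finset (ZMod n) := fun k =>
    (Finset.Ico (2 * k) n).image (fun i : ℕ => (i : ZMod n) * δ) with hU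
  have hmemU : ∀ (k i : ℕ), i < n → ((i : ZMod n) * δ ∈ U k ↔ 2 * k ≤ i) := by
    intro k i hi
    rw [hU]
    simp only [Finset.mem_image, Finset.mem_Ico]
    constructor
    · rintro ⟨j, ⟨hj1, hj2⟩, hj⟩
      rw [← hinj j i hj2 hi hj]
      exact hj1
    · intro h
      exact ⟨i, ⟨h, hi⟩, rfl⟩
  have hrow : ∀ s l : ZMod n, g (s - l) ≠ 0 ↔ (l = s - a ∨ l = s - a - δ) := by
    intro s l
    rw [hg]
    constructor
    · intro h
      split_ifs at h with h1
      · rcases h1 with h1 | h1
        · left; rw [← h1]; ring
        · right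
          have : l = s - (s - l) := by ring
          rw [this, h1]; ring
      · exact absurd rfl h
    · intro h
      rw [if_pos]
      · norm_num
      · rcases h with h | h
        · left; rw [h]; ring
        · right; rw [h]; ring
  have key : ∀ d k : ℕ, k + d = m → Val g (U k) (-1) := by
    intro d
    induction d with
    | zero =>
      intro k hk
      rw [add_zero] at hk
      subst hk
      have hUk : U k = {((2 * k : ℕ) : ZMod n) * δ} := by
        rw [hU]
        simp only
        have : Finset.Ico (2 * k) n = {2 * k} := by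
          ext i
          rw [Finset.mem_Ico, Finset.mem_singleton]
          omega
        rw [this, Finset.image_singleton]
      have hrest : rest g (U k) (((2 * k : ℕ) : ZMod n) * δ + a) = ∅ := by
        rw [hUk]
        unfold rest
        rw [Finset.filter_eq_empty_iff]
        intro x hx
        rw [Finset.mem_singleton] at hx
        rw [← ne_eq, hrow]
        left
        rw [hx]; ring
      have h0 := Val.step (g := g) (U := U k) (((2 * k : ℕ) : ZMod n) * δ + a)
        (by rw [hrest]; exact Val.nil g)
      have hE : EE g (U k) (((2 * k : ℕ) : ZMod n) * δ + a) = 1 := by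
        unfold EE
        rw [hUk, Finset.sum_singleton, hg, if_pos]
        left; ring
      rw [hE] at h0
      exact h0.mono (by norm_num)
    | succ d ih =>
      intro k hk
      have h1 := ih (k + 1) (by omega)
      have hx1 : ((2 * k + 1 : ℕ) : ZMod n) * δ = ((2 * k : ℕ) : ZMod n) * δ + δ := by
        push_cast; ring
      set s : ZMod n := ((2 * k + 1 : ℕ) : ZMod n) * δ + a with hs
      have hsa : s - a = ((2 * k + 1 : ℕ) : ZMod n) * δ := by rw [hs]; ring
      have hsd : s - a - δ = ((2 * k : ℕ) : ZMod n) * δ := by rw [hsa, hx1]; ring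
      have hrest : rest g (U k) s = U (k + 1) := by
        ext x
        unfold rest
        rw [Finset.mem_filter]
        constructor
        · rintro ⟨hx, hx0⟩
          rw [hU] at hx
          simp only [Finset.mem_image, Finset.mem_Ico] at hx
          obtain ⟨i, ⟨hi1, hi2⟩, rfl⟩ := hx
          rw [hmemU (k + 1) i hi2]
          by_contra hcon
          have h3 : i = 2 * k ∨ i = 2 * k + 1 := by omega
          have h4 : g (s - (i : ZMod n) * δ) ≠ 0 := by
            rw [hrow]
            rcases h3 with h3 | h3
            · right; rw [hsd, h3]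
            · left; rw [hsa, h3]
          exact h4 hx0
        · intro hx
          rw [hU] at hx
          simp only [Finset.mem_image, Finset.mem_Ico] at hx
          obtain ⟨i, ⟨hi1, hi2⟩, rfl⟩ := hx
          refine ⟨(hmemU k i hi2).mpr (by omega), ?_⟩
          by_contra h4
          rw [← ne_eq, hrow, hsd, hsa] at h4
          rcases h4 with h4 | h4
          · have := hinj i (2 * k + 1) hi2 (by omega) h4
            omega
          · have := hinj i (2 * k) hi2 (by omega) h4
            omega
      rw [← hrest] at h1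
      have h2 := Val.step s h1
      have hE : EE g (U k) s = 2 := by
        have h3 : EE g (U k) s = ∑ l ∈ ({((2 * k : ℕ) : ZMod n) * δ,
            ((2 * k + 1 : ℕ) : ZMod n) * δ} : Finset (ZMod n)), g (s - l) := by
          unfold EE
          symm
          apply Finset.sum_subset
          · intro x hx
            rw [Finset.mem_insert, Finset.mem_singleton] at hx
            rcases hx with rfl | rfl
            · exact (hmemU k (2 * k) (by omega)).mpr le_rfl
            · exact (hmemU k (2 * k + 1) (by omega)).mpr (by omega)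
          · intro x _ hx
            by_contra h4
            rw [← ne_eq, hrow, hsd, hsa] at h4
            apply hx
            rw [Finset.mem_insert, Finset.mem_singleton]
            rcases h4 with h4 | h4
            · right; exact h4
            · left; exact h4
        rw [h3, Finset.sum_pair, hg, hg, if_pos, if_pos]
        · norm_num
        · left; rw [hs]; ring
        · right; rw [hs, hx1]; ring
        · intro h
          have := hinj (2 * k) (2 * k + 1) (by omega) (by omega) h
          omega
      rw [hE] at h2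
      exact h2.mono (by norm_num)
  have hU0 : U 0 = univ := by
    rw [Finset.eq_univ_iff_forall]
    intro x
    obtain ⟨v, hv⟩ := hδ
    have h1 : x = (((x * ((v⁻¹ : (ZMod n)ˣ) : ZMod n)).val : ℕ) : ZMod n) * δ := by
      rw [ZMod.natCast_zmod_val, mul_assoc, ← hv, Units.inv_mul, mul_one]
    rw [h1, hmemU 0 _ (ZMod.val_lt _)]
    omega
  rw [← hU0]
  exact key m 0 (by omega)

theorem gen_of_unit [NeZero n] {g : ZMod n → ℤ} {t t' : ZMod n} (ht : g t ≠ 0) (ht' : g t' ≠ 0)
    (hu : IsUnit (t - t')) : Gen g := by
  intro H hH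
  have h1 := hH t t' ht ht'
  rw [eq_top_iff]
  intro x _
  obtain ⟨v, hv⟩ := hu
  have h2 : x = (x * ((v⁻¹ : (ZMod n)ˣ) : ZMod n)).val • (t - t') := by
    rw [nsmul_eq_mul, ZMod.natCast_zmod_val, mul_assoc, ← hv, Units.inv_mul, mul_one]
  rw [h2]
  exact H.nsmul_mem h1 _

/-- the game on `Z / l ^ 2`: fewer than `l` rows are lost -/
theorem game_sq {l : ℕ} (hl : l.Prime) (hl2 : l ≠ 2) (hn : n = l ^ 2) [NeZero n] {g : ZMod n → ℤ}
    (hg : IsSign g) {t t' : ZMod n} (ht : g t ≠ 0) (ht' : g t' ≠ 0) (hd : ¬ l ∣ (t - t').val) :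
    ∃ q : ℕ, q < l ∧ Val g univ (-(q : ℤ)) := by
  have hlodd : Odd l := hl.odd_of_ne_two hl2
  have hodd : Odd n := by rw [hn]; exact hlodd.pow
  have hl3 : 3 ≤ l := by
    have := hl.two_le
    omega
  have hn1 : 1 < n := by
    rw [hn]
    nlinarith
  have hmin : n.minFac = l := by
    rw [hn]
    exact hl.pow_minFac two_ne_zero
  have hu : IsUnit (t - t') := by
    rw [← ZMod.natCast_zmod_val (t - t'), ZMod.isUnit_iff_coprime]
    have h1 : (t - t').val.Coprime (l ^ 2) :=
      Nat.Coprime.pow_right 2 ((Nat.Prime.coprime_iff_not_dvd hl).mpr hd).symm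
    exact hn ▸ h1
  have hgen : Gen g := gen_of_unit ht ht' hu
  rcases le_or_gt (∑ i, g i) 0 with h0 | h0
  · exact ⟨0, by omega, by simpa using val_nonpos hg h0 ⟨t, ht⟩⟩
  rcases eq_or_lt_of_le (Int.add_one_le_iff.mpr h0) with h1 | h1
  · exact ⟨1, by omega, by simpa using val_one_gen hg (by omega) hgen⟩
  rcases eq_or_lt_of_le (Int.add_one_le_iff.mpr h1) with h2 | h2
  swap
  · exact ⟨0, by omega, by simpa using val_three (by omega)⟩
  have he : ∑ i, g i = 2 := by omega
  by_cases hneg : ∃ i, g i = -1
  · obtain ⟨A, -, hA, q, hq, hc⟩ := claim hg (l + 1) (by omega) (by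
      intro Y hY hYodd hlt hsub
      have h3 := stuck_card hY.2.1
      rw [he] at h3
      obtain ⟨c, hc⟩ := hlodd
      exact core2 hodd (by omega) hg he hneg hY hYodd (by rw [hmin]; omega) hsub) univ
    have h4 : (A + TT g).card ≤ l ^ 2 := by
      have := Finset.card_le_univ (A + TT g)
      rw [ZMod.card] at this
      rw [← hn]
      exact this
    refine ⟨q, ?_, hq⟩
    by_contra hcon
    push Not at hcon
    nlinarith
  · push Not at hneg
    have h01 : ∀ i, g i = 0 ∨ g i = 1 := by
      intro i
      rcases hg i with h | h | h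
      · exact Or.inl h
      · exact Or.inr h
      · exact absurd h (hneg i)
    have htt : t ≠ t' := by
      intro h
      apply hd
      rw [h, sub_self, ZMod.val_zero]
      exact dvd_zero l
    have hz : ∀ i, i ≠ t → i ≠ t' → g i = 0 := by
      intro i hi hi'
      by_contra h
      have h3 : ∑ j ∈ ({i, t, t'} : Finset (ZMod n)), g j ≤ ∑ j, g j :=
        Finset.sum_le_sum_of_subset_of_nonneg (Finset.subset_univ _) (fun j _ _ => by
          rcases h01 j with h | h <;> rw [h] <;> norm_num)
      rw [Finset.sum_insert (by simp [hi, hi']), Finset.sum_pair htt, he] at h3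
      have h4 : g i = 1 := (h01 i).resolve_left h
      have h5 : g t = 1 := (h01 t).resolve_left ht
      have h6 : g t' = 1 := (h01 t').resolve_left ht'
      omega
    refine ⟨1, by omega, ?_⟩
    have h3 := val_pair hodd (g := g) (a := t') (δ := t - t') hu (by
      intro i
      by_cases hi : i = t' ∨ i = t' + (t - t')
      · rw [if_pos hi]
        rcases hi with hi | hi
        · rw [hi]; exact (h01 t').resolve_left ht'
        · rw [hi, add_sub_cancel]; exact (h01 t).resolve_left ht
      · rw [if_neg hi]
        push Not at hi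
        refine hz i ?_ hi.1
        intro h
        apply hi.2
        rw [h, add_sub_cancel]) hn1
    simpa using h3

end Pool.Agent.Helper77.FE
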