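import Pool.Agent.Helper21.FD.G2
import Pool.Agent.Helper21.FD.G6
import Pool.Agent.Helper77.FE.C3

/-!
MP_0aa406_nt, project FE (helper50), part (i) (helper77): the mixture of a point mass, a generic point of
a fibre and a play for the fibre sums.
-/

set_option autoImplicit false

namespace Pool.Agent.Helper77.FE

open Finset Pool.Agent.Helper21.FC Pool.Agent.Helper21.FD

theorem sg_dom {e : ℤ} (he : e = 1 ∨ e = -1) {X r : ℝ} (h : |r| < |X|) :
    sg ((e : ℝ) * X + r) = e * sg X := by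
  have h1 := abs_lt.mp h
  have hX : X ≠ 0 := by
    rintro rfl
    rw [abs_zero] at h
    exact absurd (abs_nonneg r) (not_le.mpr h)
  rcases lt_or_gt_of_ne hX with h2 | h2
  · rw [abs_of_neg h2] at h1
    rcases he with rfl | rfl
    · rw [G6_sg_neg h2, G6_sg_neg (by push_cast; linarith [h1.2])]
      norm_num
    · rw [G6_sg_neg h2, G6_sg_pos (by push_cast; linarith [h1.1])]
      norm_num
  · rw [abs_of_pos h2] at h1
    rcases he with rfl | rfl
    · rw [G6_sg_pos h2, G6_sg_pos (by push_cast; linarith [h1.1])]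
      norm_num
    · rw [G6_sg_pos h2, G6_sg_neg (by push_cast; linarith [h1.2])]
      norm_num

theorem sg_zero' : sg (0 : ℝ) = 0 := by
  unfold sg
  rw [if_neg (lt_irrefl _), if_neg (lt_irrefl _)]

theorem sg_ne {x : ℝ} (h : x ≠ 0) : sg x ≠ 0 := by
  rcases lt_or_gt_of_ne h with h1 | h1
  · rw [G6_sg_neg h1]
    norm_num
  · rw [G6_sg_pos h1]
    norm_num

theorem ne_of_sg {x : ℝ} (h : sg x ≠ 0) : x ≠ 0 := by
  rintro rfl
  exact h sg_zero'

theorem sum_pr {m k : ℕ} [NeZero m] [NeZero k] (h : m ∣ k) (f : ZMod m → ℤ) :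
    ∑ c : ZMod k, f (pr m c) = ((k / m : ℕ) : ℤ) * ∑ t : ZMod m, f t := by
  rw [← Finset.sum_fiberwise_of_maps_to (g := fun c : ZMod k => pr m c)
    (fun c _ => mem_univ (pr m c)) (fun c => f (pr m c)), Finset.mul_sum]
  refine Finset.sum_congr rfl (fun t _ => ?_)
  rw [Finset.sum_congr rfl (g := fun _ => f t)
    (fun c hc => by rw [(mem_filter.1 hc).2]), Finset.sum_const, card_fibre h t, nsmul_eq_mul]

theorem mix_row {l k : ℕ} [NeZero l] [NeZero k] (hlk : l ∣ k) (a v : ZMod k → ℝ) (w : ZMod l → ℝ)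
    (Λ1 Λ2 x1 x2 : ℝ) (u : ZMod k) :
    act a (fun i => x1 * (if i = 0 then Λ1 else 0) + (x2 * (if pr l i = 0 then Λ2 * v i else 0) +
      w (pr l i))) u =
      x1 * (Λ1 * a u) + (x2 * (Λ2 * G6_b l a v u 0) + act (qt l a) w (pr l u)) := by
  have h1 := act_lift hlk a w u
  rw [← h1]
  unfold act G6_b
  have h2 : ∑ i : ZMod k, a (u - i) * (x1 * (if i = 0 then Λ1 else 0)) = x1 * (Λ1 * a u) := by
    rw [Finset.sum_eq_single 0]
    · rw [if_pos rfl, sub_zero]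
      ring
    · intro i _ hi
      rw [if_neg hi]
      ring
    · intro h
      exact absurd (mem_univ _) h
  have h3 : ∑ i : ZMod k, a (u - i) * (x2 * (if pr l i = 0 then Λ2 * v i else 0)) =
      x2 * (Λ2 * ∑ i : ZMod k, (if pr l i = 0 then a (u - i) else 0) * v i) := by
    rw [Finset.mul_sum, Finset.mul_sum]
    refine Finset.sum_congr rfl fun i _ => ?_
    by_cases hi : pr l i = 0
    · rw [if_pos hi, if_pos hi]
      ring
    · rw [if_neg hi, if_neg hi]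
      ring
  rw [← h2, ← h3, ← Finset.sum_add_distrib, ← Finset.sum_add_distrib]
  refine Finset.sum_congr rfl fun i _ => ?_
  ring

theorem mix_core {l k : ℕ} [NeZero l] [NeZero k] (hlk : l ∣ k) (a v : ZMod k → ℝ) (w : ZMod l → ℝ)
    (hsupp : ∀ c, a c ≠ 0 → qt l a (pr l c) ≠ 0)
    (hb : ∀ u, a u = 0 → qt l a (pr l u) ≠ 0 → G6_b l a v u 0 ≠ 0)
    (he : ∑ t, sg (a t) ≠ 1)
    (hw0 : ∀ g, w g ≠ 0) (hwr : ∀ c, qt l a c = 0 → act (qt l a) w c ≠ 0)
    (hval : (l : ℤ) ≤ ∑ g, sg (w g) -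
      ∑ c ∈ univ.filter (fun c => qt l a c = 0), sg (act (qt l a) w c))
    (β M Λ1 Λ2 : ℝ) (hv : ∀ i, 1 ≤ v i) (hvM : ∀ i, v i ≤ M)
    (haβ : ∀ u, a u ≠ 0 → β ≤ |a u|) (hbβ : ∀ u, G6_b l a v u 0 ≠ 0 → β ≤ |G6_b l a v u 0|)
    (hbM : ∀ u, |G6_b l a v u 0| ≤ M) (hwM : ∀ g, |w g| ≤ M)
    (hAM : ∀ c, |act (qt l a) w c| ≤ M)
    (hM : M < Λ2) (hΛ2 : M < Λ2 * β) (hM1 : Λ2 * M + M < Λ1) (hΛ1 : Λ2 * M + M < Λ1 * β) :
    ∃ e1 e2 : ℤ, (e1 = 1 ∨ e1 = -1) ∧ (e2 = 1 ∨ e2 = -1) ∧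
      (∀ i : ZMod k, (e1 : ℝ) * (if i = 0 then Λ1 else 0) +
        ((e2 : ℝ) * (if pr l i = 0 then Λ2 * v i else 0) + w (pr l i)) ≠ 0) ∧
      (∀ u, act a (fun i => (e1 : ℝ) * (if i = 0 then Λ1 else 0) +
        ((e2 : ℝ) * (if pr l i = 0 then Λ2 * v i else 0) + w (pr l i))) u ≠ 0) ∧
      (k : ℤ) - (k / l : ℕ) + 1 ≤
        ∑ i : ZMod k, sg ((e1 : ℝ) * (if i = 0 then Λ1 else 0) +
          ((e2 : ℝ) * (if pr l i = 0 then Λ2 * v i else 0) + w (pr l i))) -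
          ∑ u, sg (act a (fun i => (e1 : ℝ) * (if i = 0 then Λ1 else 0) +
            ((e2 : ℝ) * (if pr l i = 0 then Λ2 * v i else 0) + w (pr l i))) u) := by
  classical
  have hM0 : 0 < M := lt_of_lt_of_le one_pos (le_trans (hv 0) (hvM 0))
  have hΛ20 : 0 < Λ2 := lt_trans hM0 hM
  have hΛ10 : 0 < Λ1 := by
    have : 0 < Λ2 * M := mul_pos hΛ20 hM0
    linarith
  have hpr0 : pr l (0 : ZMod k) = 0 := by
    unfold pr
    rw [ZMod.val_zero, Nat.cast_zero]
  have habs : ∀ {e : ℤ}, (e = 1 ∨ e = -1) → |(e : ℝ)| = 1 := by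
    intro e h
    rcases h with rfl | rfl <;> simp
  -- coordinates
  have hco : ∀ e1 e2 : ℤ, (e1 = 1 ∨ e1 = -1) → (e2 = 1 ∨ e2 = -1) → ∀ i : ZMod k,
      sg ((e1 : ℝ) * (if i = 0 then Λ1 else 0) +
        ((e2 : ℝ) * (if pr l i = 0 then Λ2 * v i else 0) + w (pr l i))) =
      e1 * (if i = 0 then 1 else 0) + (e2 * (if pr l i = 0 ∧ i ≠ 0 then 1 else 0) +
        (if pr l i = 0 then 0 else sg (w (pr l i)))) := by
    intro e1 e2 h1 h2 i
    have hsm : |(e2 : ℝ) * (Λ2 * v i) + w (pr l i)| ≤ Λ2 * M + M := by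
      refine le_trans (abs_add_le _ _) (add_le_add ?_ (hwM _))
      rw [abs_mul, habs h2, one_mul, abs_mul, abs_of_pos hΛ20,
        abs_of_pos (lt_of_lt_of_le one_pos (hv i))]
      exact mul_le_mul_of_nonneg_left (hvM i) hΛ20.le
    by_cases h0 : i = 0
    · subst h0
      rw [if_pos rfl, if_pos hpr0, if_pos rfl, if_pos hpr0, if_neg (by simp), sg_dom h1 (by
        rw [abs_of_pos hΛ10]
        exact lt_of_le_of_lt hsm hM1), G6_sg_pos hΛ10]
      ring
    · rw [if_neg h0, if_neg h0, mul_zero, zero_add, mul_zero, zero_add]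
      by_cases h3 : pr l i = 0
      · rw [if_pos h3, if_pos ⟨h3, h0⟩, if_pos h3, sg_dom h2 (by
          rw [abs_mul, abs_of_pos hΛ20, abs_of_pos (lt_of_lt_of_le one_pos (hv i))]
          have h4 : Λ2 * 1 ≤ Λ2 * v i := mul_le_mul_of_nonneg_left (hv i) hΛ20.le
          have h5 := hwM (pr l i)
          linarith), G6_sg_pos (mul_pos hΛ20 (lt_of_lt_of_le one_pos (hv i)))]
        ring
      · rw [if_neg h3, if_neg (fun h => h3 h.1), if_neg h3, mul_zero, zero_add, mul_zero, zero_add]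
  have hro : ∀ e1 e2 : ℤ, (e1 = 1 ∨ e1 = -1) → (e2 = 1 ∨ e2 = -1) → ∀ u : ZMod k,
      sg (act a (fun i => (e1 : ℝ) * (if i = 0 then Λ1 else 0) +
        ((e2 : ℝ) * (if pr l i = 0 then Λ2 * v i else 0) + w (pr l i))) u) =
      e1 * sg (a u) + (e2 * (if a u = 0 ∧ qt l a (pr l u) ≠ 0 then sg (G6_b l a v u 0) else 0) +
        (if qt l a (pr l u) = 0 then sg (act (qt l a) w (pr l u)) else 0)) := by
    intro e1 e2 h1 h2 u
    rw [mix_row hlk]
    have hsm : |(e2 : ℝ) * (Λ2 * G6_b l a v u 0) + act (qt l a) w (pr l u)| ≤ Λ2 * M + M := by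
      refine le_trans (abs_add_le _ _) (add_le_add ?_ (hAM _))
      rw [abs_mul, habs h2, one_mul, abs_mul, abs_of_pos hΛ20]
      exact mul_le_mul_of_nonneg_left (hbM u) hΛ20.le
    by_cases h0 : a u = 0
    · rw [h0, mul_zero, mul_zero, zero_add, sg_zero', mul_zero, zero_add]
      by_cases h3 : qt l a (pr l u) = 0
      · have h4 : G6_b l a v u 0 = 0 := by
          unfold G6_b
          refine Finset.sum_eq_zero fun i _ => ?_
          by_cases hi : pr l i = 0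
          · rw [if_pos hi]
            have h5 : a (u - i) = 0 := by
              by_contra hne
              have := hsupp _ hne
              rw [pr_sub hlk, hi, sub_zero] at this
              exact this h3
            rw [h5, zero_mul]
          · rw [if_neg hi, zero_mul]
        rw [h4, mul_zero, mul_zero, zero_add, if_neg (fun h => h.2 h3), if_pos h3, mul_zero, zero_add]
      · rw [if_pos ⟨rfl, h3⟩, if_neg h3, add_zero, sg_dom h2 (by
          rw [abs_mul, abs_of_pos hΛ20]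
          have h4 := hbβ u (hb u h0 h3)
          have h5 : Λ2 * β ≤ Λ2 * |G6_b l a v u 0| := mul_le_mul_of_nonneg_left h4 hΛ20.le
          have h6 := hAM (pr l u)
          linarith)]
        congr 1
        rcases lt_or_gt_of_ne (hb u h0 h3) with h7 | h7
        · rw [G6_sg_neg h7, G6_sg_neg (mul_neg_of_pos_of_neg hΛ20 h7)]
        · rw [G6_sg_pos h7, G6_sg_pos (mul_pos hΛ20 h7)]
    · have h3 := hsupp u h0
      rw [if_neg (fun h => h0 h.1), if_neg h3, mul_zero, add_zero, add_zero, sg_dom h1 (by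
        rw [abs_mul, abs_of_pos hΛ10]
        have h5 : Λ1 * β ≤ Λ1 * |a u| := mul_le_mul_of_nonneg_left (haβ u h0) hΛ10.le
        linarith)]
      congr 1
      rcases lt_or_gt_of_ne h0 with h7 | h7
      · rw [G6_sg_neg h7, G6_sg_neg (mul_neg_of_pos_of_neg hΛ10 h7)]
      · rw [G6_sg_pos h7, G6_sg_pos (mul_pos hΛ10 h7)]
  obtain ⟨N1, hN1⟩ : ∃ N1 : ℤ, N1 = 1 - ∑ u, sg (a u) := ⟨_, rfl⟩
  obtain ⟨N2, hN2⟩ : ∃ N2 : ℤ, N2 = ∑ i : ZMod k, (if pr l i = 0 ∧ i ≠ 0 then (1 : ℤ) else 0) -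
    ∑ u : ZMod k, (if a u = 0 ∧ qt l a (pr l u) ≠ 0 then sg (G6_b l a v u 0) else 0) := ⟨_, rfl⟩
  have hN10 : N1 ≠ 0 := by
    rw [hN1]
    intro h
    exact he (by linarith)
  have hpick : ∀ N : ℤ, ∃ e : ℤ, (e = 1 ∨ e = -1) ∧ e * N = |N| := by
    intro N
    rcases le_total 0 N with h | h
    · exact ⟨1, Or.inl rfl, by rw [abs_of_nonneg h, one_mul]⟩
    · exact ⟨-1, Or.inr rfl, by rw [abs_of_nonpos h, neg_one_mul]⟩
  obtain ⟨e1, h1, hE1⟩ := hpick N1
  obtain ⟨e2, h2, hE2⟩ := hpick N2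
  have hne1 : e1 ≠ 0 := by rcases h1 with rfl | rfl <;> norm_num
  have hne2 : e2 ≠ 0 := by rcases h2 with rfl | rfl <;> norm_num
  refine ⟨e1, e2, h1, h2, ?_, ?_, ?_⟩
  · intro i
    apply ne_of_sg
    rw [hco e1 e2 h1 h2 i]
    by_cases h0 : i = 0
    · subst h0
      rw [if_pos rfl, if_pos hpr0, if_neg (by simp)]
      simpa using hne1
    · rw [if_neg h0]
      by_cases h3 : pr l i = 0
      · rw [if_pos ⟨h3, h0⟩, if_pos h3]
        simpa using hne2
      · rw [if_neg (fun h => h3 h.1), if_neg h3]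
        simpa using sg_ne (hw0 _)
  · intro u
    apply ne_of_sg
    rw [hro e1 e2 h1 h2 u]
    by_cases h0 : a u = 0
    · by_cases h3 : qt l a (pr l u) = 0
      · rw [h0, sg_zero', if_neg (fun h => h.2 h3), if_pos h3]
        simpa using sg_ne (hwr _ h3)
      · rw [if_pos ⟨h0, h3⟩, if_neg h3, h0, sg_zero']
        simpa using ⟨hne2, sg_ne (hb u h0 h3)⟩
    · have h3 := hsupp u h0
      rw [if_neg (fun h => h0 h.1), if_neg h3]
      simpa using ⟨hne1, sg_ne h0⟩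
  · rw [Finset.sum_congr rfl fun i _ => hco e1 e2 h1 h2 i,
      Finset.sum_congr rfl fun u _ => hro e1 e2 h1 h2 u]
    rw [Finset.sum_add_distrib, Finset.sum_add_distrib, Finset.sum_add_distrib,
      Finset.sum_add_distrib, ← Finset.mul_sum, ← Finset.mul_sum, ← Finset.mul_sum,
      ← Finset.mul_sum]
    have h3 : ∑ i : ZMod k, (if i = 0 then (1 : ℤ) else 0) = 1 := by simp
    have h4 : ∑ i : ZMod k, (if pr l i = 0 then 0 else sg (w (pr l i))) =
        ((k / l : ℕ) : ℤ) * ∑ t : ZMod l, (if t = 0 then 0 else sg (w t)) :=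
      sum_pr hlk (fun t => if t = 0 then 0 else sg (w t))
    have h5 : ∑ u : ZMod k, (if qt l a (pr l u) = 0 then sg (act (qt l a) w (pr l u)) else 0) =
        ((k / l : ℕ) : ℤ) * ∑ t : ZMod l, (if qt l a t = 0 then sg (act (qt l a) w t) else 0) :=
      sum_pr hlk (fun t => if qt l a t = 0 then sg (act (qt l a) w t) else 0)
    have h6 : ∑ t : ZMod l, (if t = 0 then 0 else sg (w t)) = ∑ t, sg (w t) - sg (w 0) := by
      rw [eq_sub_iff_add_eq, ← Finset.sum_erase_add _ _ (mem_univ (0 : ZMod l)), if_pos rfl,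
        add_zero, ← Finset.sum_erase_add (univ : Finset (ZMod l)) (fun t => sg (w t))
          (mem_univ (0 : ZMod l))]
      congr 1
      refine Finset.sum_congr rfl fun t ht => ?_
      rw [if_neg (Finset.ne_of_mem_erase ht)]
    rw [Finset.sum_filter] at hval
    have h7 := G6_sg_le (w 0)
    have h8 : 1 ≤ |N1| := Int.one_le_abs hN10
    have h9 : 0 ≤ |N2| := abs_nonneg _
    rw [h3, h4, h5, h6]
    obtain ⟨W, hW⟩ : ∃ W, W = ∑ t, sg (w t) - sg (w 0) := ⟨_, rfl⟩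
    obtain ⟨R, hR⟩ : ∃ R, R = ∑ t : ZMod l, (if qt l a t = 0 then sg (act (qt l a) w t) else 0) :=
      ⟨_, rfl⟩
    rw [← hW, ← hR]
    rw [← hR] at hval
    have h10 : (l : ℤ) - 1 ≤ W - R := by linarith
    have h11 : (k : ℤ) = ((k / l : ℕ) : ℤ) * l := by
      have : k = k / l * l := (Nat.div_mul_cancel hlk).symm
      exact_mod_cast this
    have h12 : ((k / l : ℕ) : ℤ) * ((l : ℤ) - 1) ≤ ((k / l : ℕ) : ℤ) * (W - R) :=
      mul_le_mul_of_nonneg_left h10 (Int.natCast_nonneg _)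
    have h13 : e1 * (1 - ∑ u, sg (a u)) = |N1| := by rw [← hE1, hN1]
    have h14 : e2 * (∑ i : ZMod k, (if pr l i = 0 ∧ i ≠ 0 then (1 : ℤ) else 0) -
      ∑ u : ZMod k, (if a u = 0 ∧ qt l a (pr l u) ≠ 0 then sg (G6_b l a v u 0) else 0)) = |N2| := by
      rw [← hE2, hN2]
    rw [mul_sub] at h12 h13 h14
    rw [mul_sub] at h12
    linarith

/-- case (i): the mixture -/
theorem mix (k B l : ℕ) [Fact l.Prime] [NeZero l] [NeZero k] (hlk : l ∣ k) : ∃ B1 : ℕ, ∀ p : ℕ,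
    p.Prime → ∀ a : ZMod k → ℝ, (∀ t, Alg p k B (a t)) → (∀ c, a c ≠ 0 → qt l a (pr l c) ≠ 0) →
    Two (qt l a) → ∑ t, sg (qt l a t) = 1 → ∑ t, sg (a t) ≠ 1 →
      AVal p k B1 a (k - (k / l : ℕ) + 1) := by
  classical
  obtain ⟨Bv, hBv⟩ : ∃ Bv : ℕ, Bv = (k * k + 1) * k := ⟨_, rfl⟩
  obtain ⟨b0, hb0⟩ := liouville k (B + Bv + k + 1 + k)
  obtain ⟨b1, hb1⟩ := liouville k (B + k)
  obtain ⟨E0, hE0⟩ : ∃ E0 : ℕ, E0 = l + (B + k + k + 1) + b1 + 1 := ⟨_, rfl⟩
  obtain ⟨bM, hbM⟩ : ∃ bM : ℕ, bM = (B + Bv + k + 1 + k) + (B + k + E0 * l + k + 1 + l) +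
    E0 * l + Bv + k + 1 := ⟨_, rfl⟩
  obtain ⟨E2, hE2⟩ : ∃ E2 : ℕ, E2 = bM + b0 + 1 := ⟨_, rfl⟩
  obtain ⟨E1, hE1⟩ : ∃ E1 : ℕ, E1 = E2 + bM + b0 + 2 := ⟨_, rfl⟩
  refine ⟨E1 + (E2 + Bv) + E0 * l + 2, fun p hp a ha hsupp hTwo heA hea => ?_⟩
  have hp2 : 2 ≤ p := hp.two_le
  have hpR1 : (1 : ℝ) ≤ p := by exact_mod_cast (by omega : 1 ≤ p)
  have hpR2 : (2 : ℝ) ≤ p := by exact_mod_cast hp2
  have hpR0 : (0 : ℝ) < p := by linarith
  -- a generic point
  obtain ⟨s0, hs1, hs2, hs3⟩ :=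
    generic (F := {u : ZMod k // ∃ i, pr l i = 0 ∧ a (u - i) ≠ 0})
      (fun f i => if pr l i = 0 then a (f.1 - i) else 0) (fun f => by
        obtain ⟨i, hi, hi'⟩ := f.2
        exact ⟨i, by rw [if_pos hi]; exact hi'⟩)
  have hcardF : Fintype.card {u : ZMod k // ∃ i, pr l i = 0 ∧ a (u - i) ≠ 0} ≤ k := by
    refine le_trans (Fintype.card_subtype_le _) ?_
    rw [ZMod.card]
  have hs4 : s0 ≤ k * k + 1 :=
    le_trans hs2 (Nat.add_le_add_right (Nat.mul_le_mul_right k hcardF) 1)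
  have hvN : ∀ i : ZMod k, s0 ^ i.val ≤ p ^ Bv := by
    intro i
    have h1 : s0 ≤ p ^ (k * k + 1) :=
      le_trans hs4 (le_trans Nat.lt_two_pow_self.le (Nat.pow_le_pow_left hp2 _))
    calc s0 ^ i.val ≤ (p ^ (k * k + 1)) ^ i.val := Nat.pow_le_pow_left h1 _
      _ = p ^ ((k * k + 1) * i.val) := (pow_mul _ _ _).symm
      _ ≤ p ^ Bv := by
          refine Nat.pow_le_pow_right (by omega) ?_
          rw [hBv]
          exact Nat.mul_le_mul_left _ (ZMod.val_lt i).le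
  obtain ⟨v, hv⟩ : ∃ v : ZMod k → ℝ, ∀ i, v i = (s0 : ℝ) ^ i.val := ⟨_, fun _ => rfl⟩
  have hv1 : ∀ i, 1 ≤ v i := by
    intro i
    rw [hv]
    exact one_le_pow₀ (by exact_mod_cast hs1)
  have hvle : ∀ i, v i ≤ (p : ℝ) ^ Bv := by
    intro i
    rw [hv]
    exact_mod_cast hvN i
  have hgen : ∀ u : ZMod k, qt l a (pr l u) ≠ 0 → G6_b l a v u 0 ≠ 0 := by
    intro u hu
    have hex : ∃ i, pr l i = 0 ∧ a (u - i) ≠ 0 := by
      unfold qt at hu
      obtain ⟨c, hc, hc1⟩ := Finset.exists_ne_zero_of_sum_ne_zero hu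
      refine ⟨u - c, ?_, by rwa [sub_sub_cancel]⟩
      rw [pr_sub hlk, (Finset.mem_filter.mp hc).2, sub_self]
    have h1 := hs3 ⟨u, hex⟩
    unfold G6_b
    simp only [hv]
    exact h1
  have hbAlg : ∀ u, Alg p k (B + Bv + k + 1 + k) (G6_b l a v u 0) := by
    intro u
    have h1 : ∀ i ∈ (univ : Finset (ZMod k)),
        Alg p k (B + Bv + k + 1) ((if pr l i = 0 then a (u - i) else 0) * v i) := by
      intro i _
      refine Alg.mul hp2 ?_ ?_
      · by_cases hi : pr l i = 0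
        · rw [if_pos hi]
          exact ha _
        · rw [if_neg hi]
          exact Alg.mono hp2 (Nat.zero_le B) alg_zero
      · have h2 : v i = (((s0 : ℤ) ^ i.val : ℤ) : ℝ) := by
          rw [hv]
          push_cast
          rfl
        rw [h2]
        refine alg_int Bv _ ?_
        rw [abs_of_nonneg (by positivity)]
        exact_mod_cast hvN i
    have h2 := Alg.sum hp2 univ (fun i => (if pr l i = 0 then a (u - i) else 0) * v i) h1
    rw [Finset.card_univ, ZMod.card] at h2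
    exact h2
  have hAAlg : ∀ t, Alg p k (B + k) (qt l a t) := fun t => alg_qt hp2 a ha t
  -- the play
  obtain ⟨g, hg⟩ : ∃ g : ZMod l → ℤ, ∀ t, g t = sg (qt l a (-t)) := ⟨_, fun _ => rfl⟩
  have hge : ∑ t, g t = 1 := by
    rw [← heA]
    exact Fintype.sum_equiv (Equiv.neg _) _ _ (fun t => by rw [hg]; rfl)
  obtain ⟨t1, t2, ht12, ht1, ht2⟩ := hTwo
  have hgT : 2 ≤ (Helper77.KZ.TT g).card := by
    have h1 : ({-t1, -t2} : Finset (ZMod l)) ⊆ Helper77.KZ.TT g := by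
      intro x hx
      rw [mem_TT]
      rcases Finset.mem_insert.mp hx with h | h
      · rw [h, hg, neg_neg]
        exact sg_ne ht1
      · rw [Finset.mem_singleton.mp h, hg, neg_neg]
        exact sg_ne ht2
    have h2 := Finset.card_le_card h1
    rwa [Finset.card_pair (fun h => ht12 (neg_injective h))] at h2
  obtain ⟨U, hU⟩ : ∃ U : Finset (ZMod l), U = univ.filter (fun c => qt l a c = 0) := ⟨_, rfl⟩
  have hUne : U ≠ univ := by
    intro h
    have h1 : t1 ∈ U := by rw [h]; exact mem_univ _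
    rw [hU] at h1
    exact ht1 (Finset.mem_filter.mp h1).2
  obtain ⟨F, hF0, hF⟩ := val_proper hge hgT U hUne
  have hl : (l : ℝ) ≤ (p : ℝ) ^ l := by
    have := L1_card_le hp2 l
    exact_mod_cast this
  have hΛ : (l : ℝ) * (p : ℝ) ^ (B + k + k + 1) <
      ((p : ℝ) ^ b1)⁻¹ * (((p : ℤ) ^ E0 : ℤ) : ℝ) := by
    have h1 : ((p : ℝ) ^ b1)⁻¹ * (((p : ℤ) ^ E0 : ℤ) : ℝ) =
        (p : ℝ) ^ l * (p : ℝ) ^ (B + k + k + 1) * (p : ℝ) := by
      rw [hE0]
      push_cast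
      rw [pow_succ, pow_add, pow_add]
      field_simp
    rw [h1]
    have h2 : (l : ℝ) * (p : ℝ) ^ (B + k + k + 1) ≤ (p : ℝ) ^ l * (p : ℝ) ^ (B + k + k + 1) :=
      mul_le_mul_of_nonneg_right hl (by positivity)
    have h3 : 0 < (p : ℝ) ^ l * (p : ℝ) ^ (B + k + k + 1) := by positivity
    nlinarith
  obtain ⟨w, hw0, hwb, hwr, hwv⟩ := play_real g (fun u i => qt l a (u - i))
    (fun u i => by rw [hg, neg_sub]) (((p : ℝ) ^ b1)⁻¹) ((p : ℝ) ^ (B + k + k + 1))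
    (by positivity) (fun u i => (hAAlg (u - i)).abs_le hp2)
    (fun u i h => hb1 p hp _ (hAAlg (u - i)) h)
    ((p : ℤ) ^ E0) (one_le_pow₀ (by exact_mod_cast hp.one_lt.le)) hΛ U F hF
  have hwE : ∀ i, |w i| ≤ (p : ℤ) ^ (E0 * l) := by
    intro i
    refine (hwb i).trans ?_
    rw [← pow_mul]
    refine pow_le_pow_right₀ (by exact_mod_cast hp.one_lt.le) (Nat.mul_le_mul_left _ ?_)
    have := Finset.card_le_univ U
    rwa [ZMod.card] at this
  have hactAlg : ∀ u, Alg p k (B + k + E0 * l + k + 1 + l) (act (qt l a) (fun i => (w i : ℝ)) u) :=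
    fun u => alg_act hp2 _ _ hAAlg (fun t => alg_int _ _ (hwE t)) u
  have hMle : ∀ b : ℕ, b ≤ bM → (p : ℝ) ^ b ≤ (p : ℝ) ^ bM :=
    fun b hb => pow_le_pow_right₀ hpR1 hb
  have haAlg : ∀ u, Alg p k (B + Bv + k + 1 + k) (a u) := fun u => Alg.mono hp2 (by omega) (ha u)
  obtain ⟨e1, e2, h1, h2, hy0, hyr, hyv⟩ := mix_core hlk a v (fun i => (w i : ℝ)) hsupp
    (fun u _ hu => hgen u hu) hea (fun i => Int.cast_ne_zero.mpr (hw0 i))
    (fun c hc => hwr c (by rw [hU]; exact Finset.mem_filter.mpr ⟨mem_univ _, hc⟩))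
    (by
      have h3 : ∑ i, sg (w i : ℝ) = ∑ i, Int.sign (w i) :=
        Finset.sum_congr rfl fun i _ => sg_int (w i)
      rw [h3, ← hU]
      unfold act
      linarith)
    (((p : ℝ) ^ b0)⁻¹) ((p : ℝ) ^ bM) ((p : ℝ) ^ E1) ((p : ℝ) ^ E2) hv1
    (fun i => (hvle i).trans (hMle _ (by omega)))
    (fun u h => hb0 p hp _ (haAlg u) h)
    (fun u h => hb0 p hp _ (hbAlg u) h)
    (fun u => ((hbAlg u).abs_le hp2).trans (hMle _ (by omega)))
    (fun i => by
      have h3 : |(w i : ℝ)| ≤ (p : ℝ) ^ (E0 * l) := by exact_mod_cast hwE i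
      exact h3.trans (hMle _ (by omega)))
    (fun c => ((hactAlg c).abs_le hp2).trans (hMle _ (by omega)))
    (pow_lt_pow_right₀ (by linarith) (by omega))
    (by
      rw [lt_mul_inv_iff₀ (pow_pos hpR0 _), ← pow_add]
      exact pow_lt_pow_right₀ (by linarith) (by omega))
    (by
      have h3 : (p : ℝ) ^ E2 * (p : ℝ) ^ bM + (p : ℝ) ^ bM ≤ 2 * (p : ℝ) ^ (E2 + bM) := by
        rw [← pow_add]
        have := pow_le_pow_right₀ hpR1 (show bM ≤ E2 + bM by omega)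
        linarith
      have h4 : 2 * (p : ℝ) ^ (E2 + bM) ≤ (p : ℝ) ^ (E2 + bM + 1) := by
        rw [pow_succ]
        have := pow_pos hpR0 (E2 + bM)
        nlinarith
      have h5 : (p : ℝ) ^ (E2 + bM + 1) < (p : ℝ) ^ E1 :=
        pow_lt_pow_right₀ (by linarith) (by omega)
      linarith)
    (by
      have h3 : (p : ℝ) ^ E2 * (p : ℝ) ^ bM + (p : ℝ) ^ bM ≤ 2 * (p : ℝ) ^ (E2 + bM) := by
        rw [← pow_add]
        have := pow_le_pow_right₀ hpR1 (show bM ≤ E2 + bM by omega)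
        linarith
      have h4 : 2 * (p : ℝ) ^ (E2 + bM) ≤ (p : ℝ) ^ (E2 + bM + 1) := by
        rw [pow_succ]
        have := pow_pos hpR0 (E2 + bM)
        nlinarith
      refine lt_of_le_of_lt (h3.trans h4) ?_
      rw [lt_mul_inv_iff₀ (pow_pos hpR0 _), ← pow_add]
      exact pow_lt_pow_right₀ (by linarith) (by omega))
  refine ⟨_, fun i => ?_, hy0, hyr, ?_⟩
  · have he' : ∀ {e : ℤ}, (e = 1 ∨ e = -1) → |e| = 1 := by
      intro e h
      rcases h with rfl | rfl <;> simp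
    have hpZ1 : (1 : ℤ) ≤ p := by exact_mod_cast hp.one_lt.le
    have h3 : (e1 : ℝ) * (if i = 0 then (p : ℝ) ^ E1 else 0) +
        ((e2 : ℝ) * (if pr l i = 0 then (p : ℝ) ^ E2 * v i else 0) + (w (pr l i) : ℝ)) =
        ((e1 * (if i = 0 then (p : ℤ) ^ E1 else 0) +
          (e2 * (if pr l i = 0 then (p : ℤ) ^ E2 * (s0 : ℤ) ^ i.val else 0) + w (pr l i)) : ℤ) : ℝ) := by
      rw [hv]
      push_cast
      rfl
    beta_reduce
    rw [h3]
    refine alg_int _ _ ?_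
    have h4 : |e1 * (if i = 0 then (p : ℤ) ^ E1 else 0)| ≤ (p : ℤ) ^ (E1 + (E2 + Bv) + E0 * l) := by
      rw [abs_mul, he' h1, one_mul]
      by_cases hi : i = 0
      · rw [if_pos hi, abs_of_nonneg (by positivity)]
        exact pow_le_pow_right₀ hpZ1 (by omega)
      · rw [if_neg hi, abs_zero]
        positivity
    have h5 : |e2 * (if pr l i = 0 then (p : ℤ) ^ E2 * (s0 : ℤ) ^ i.val else 0)| ≤
        (p : ℤ) ^ (E1 + (E2 + Bv) + E0 * l) := by
      rw [abs_mul, he' h2, one_mul]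
      by_cases hi : pr l i = 0
      · rw [if_pos hi, abs_of_nonneg (by positivity)]
        have h6 : ((s0 : ℤ) ^ i.val) ≤ (p : ℤ) ^ Bv := by exact_mod_cast hvN i
        calc (p : ℤ) ^ E2 * (s0 : ℤ) ^ i.val ≤ (p : ℤ) ^ E2 * (p : ℤ) ^ Bv :=
              mul_le_mul_of_nonneg_left h6 (by positivity)
          _ = (p : ℤ) ^ (E2 + Bv) := (pow_add _ _ _).symm
          _ ≤ _ := pow_le_pow_right₀ hpZ1 (by omega)
      · rw [if_neg hi, abs_zero]
        positivity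
    have h6 : |w (pr l i)| ≤ (p : ℤ) ^ (E1 + (E2 + Bv) + E0 * l) :=
      (hwE _).trans (pow_le_pow_right₀ hpZ1 (by omega))
    have h7 := abs_add_le (e1 * (if i = 0 then (p : ℤ) ^ E1 else 0))
      (e2 * (if pr l i = 0 then (p : ℤ) ^ E2 * (s0 : ℤ) ^ i.val else 0) + w (pr l i))
    have h8 := abs_add_le (e2 * (if pr l i = 0 then (p : ℤ) ^ E2 * (s0 : ℤ) ^ i.val else 0))
      (w (pr l i))
    have h9 : 4 * (p : ℤ) ^ (E1 + (E2 + Bv) + E0 * l) ≤ (p : ℤ) ^ (E1 + (E2 + Bv) + E0 * l + 2) := by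
      rw [pow_add _ _ 2]
      have h10 : (4 : ℤ) ≤ (p : ℤ) ^ 2 := by
        have : (2 : ℤ) ≤ p := by exact_mod_cast hp2
        nlinarith
      have h11 : (0 : ℤ) < (p : ℤ) ^ (E1 + (E2 + Bv) + E0 * l) := by positivity
      nlinarith
    have h12 : (0 : ℤ) < (p : ℤ) ^ (E1 + (E2 + Bv) + E0 * l) := by positivity
    linarith
  · have h3 : (((k : ℤ) - (k / l : ℕ) + 1 : ℤ) : ℝ) ≤ _ := Int.cast_le.mpr hyv
    refine le_trans (le_of_eq ?_) h3
    rw [Int.cast_add, Int.cast_sub, Int.cast_natCast, Int.cast_natCast, Int.cast_one]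

end Pool.Agent.Helper77.FE
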